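import Pool.Agent.K4H45.PC.Spec

namespace K4H45.PC
open Set Polynomial

theorem ball : S_BALL := by
  intro K b hK _ hf
  rcases K.eq_empty_or_nonempty with rfl | hne
  · exact empty_subset _
  obtain ⟨z, hz, hmax⟩ := hK.exists_isMaxOn hne
    (f := fun z : ℂ => ‖z - b‖) ((continuous_id.sub continuous_const).norm.continuousOn)
  have hmax' : ∀ y ∈ K, ‖y - b‖ ≤ ‖z - b‖ := fun y hy => hmax hy
  by_cases hzi : z ∈ interior K
  · have hzb : z - b = 0 := by
      by_contra hne
      have hpos : 0 < ‖z - b‖ := norm_pos_iff.2 hne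
      have hc : Filter.Tendsto (fun s : ℝ => z + (s : ℂ) * (z - b)) (nhds 0) (nhds z) := by
        have : Continuous (fun s : ℝ => z + (s : ℂ) * (z - b)) := by fun_prop
        have h := this.tendsto 0
        simpa using h
      have hev : ∀ᶠ s : ℝ in nhds 0, z + (s : ℂ) * (z - b) ∈ K :=
        hc (mem_interior_iff_mem_nhds.1 hzi)
      obtain ⟨δ, hδ, hb⟩ := Metric.eventually_nhds_iff.1 hev
      have h1 : z + ((δ / 2 : ℝ) : ℂ) * (z - b) ∈ K := hb (by
        rw [Real.dist_eq, sub_zero, abs_of_pos (by linarith)]; linarith)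
      have h2 := hmax' _ h1
      have h3 : z + ((δ / 2 : ℝ) : ℂ) * (z - b) - b = ((1 + δ / 2 : ℝ) : ℂ) * (z - b) := by
        push_cast; ring
      rw [h3, norm_mul, Complex.norm_real, Real.norm_eq_abs, abs_of_pos (by linarith)] at h2
      nlinarith
    intro y hy
    rw [mem_closedBall_iff_norm]
    have h1 := hmax' y hy
    rw [hzb, norm_zero] at h1
    linarith
  · have hzf : z ∈ frontier K := by
      rw [hK.isClosed.frontier_eq]
      exact ⟨hz, hzi⟩
    have h0 := hf hzf
    rw [mem_closedBall_iff_norm] at h0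
    intro y hy
    rw [mem_closedBall_iff_norm]
    exact (hmax' y hy).trans h0

end K4H45.PC
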