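import Pool.Agent.K4H45.PC.Spec

set_option autoImplicit false

namespace K4H45.PC
open Set Polynomial

theorem wts_nonneg {M : ℕ} {t : Fin M → ℝ} {W : Fin M → ℝ → ℝ} {ε : ℝ} (h : Wts M t W ε) : 0 ≤ ε := by
  have h0 : (0 : ℝ) ∈ Icc (-1 : ℝ) 1 := by constructor <;> norm_num
  refine le_trans ?_ (h.mom 0 h0)
  exact Finset.sum_nonneg fun j _ => mul_nonneg (h.nn j 0 h0) (sq_nonneg _)

theorem cov (hM : S_MEMK) (hE : S_ENDS) (hG : S_GEO) : S_COV := by
  intro K G hB hP M t W ε hW a ha
  have hε := wts_nonneg hW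
  obtain ⟨h1, h2⟩ := hE K G hB hP M t W ε hW a ha
  have key : ∃ u, |u - a| ≤ 1 / 104 ∧
      |dot (PP t W G u - G a) (Complex.I * (xx a - G a))| ≤ 64896 * ε := by
    have hc : Continuous fun u : ℝ => dot (PP t W G u - G a) (Complex.I * (xx a - G a)) := by
      have hc1 : Continuous fun u : ℝ => PP t W G u := by
        unfold PP
        refine continuous_finsetSum _ fun j _ => ?_
        exact (Complex.continuous_ofReal.comp (hW.cont j)).mul continuous_const
      unfold dot
      have hc2 : Continuous fun u : ℝ => PP t W G u - G a := hc1.sub continuous_const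
      exact ((Complex.continuous_re.comp hc2).mul continuous_const).add
        ((Complex.continuous_im.comp hc2).mul continuous_const)
    by_cases h3 : dot (PP t W G (a + 1 / 104) - G a) (Complex.I * (xx a - G a)) ≤ 64896 * ε
    · refine ⟨a + 1 / 104, ?_, abs_le.2 ⟨h1, h3⟩⟩
      rw [add_sub_cancel_left]
      norm_num
    · push Not at h3
      have hab : a - 1 / 104 ≤ a + 1 / 104 := by linarith
      obtain ⟨u, hu, hu'⟩ := intermediate_value_Icc hab hc.continuousOn ⟨h2, h3.le⟩
      refine ⟨u, abs_le.2 ⟨by linarith [hu.1], by linarith [hu.2]⟩, ?_⟩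
      have hu'' : dot (PP t W G u - G a) (Complex.I * (xx a - G a)) = 64896 * ε := hu'
      rw [hu'', abs_of_nonneg (by positivity)]
  obtain ⟨u, hu, hu'⟩ := key
  have hu1 : u ∈ Icc (-1 : ℝ) 1 := by
    obtain ⟨h3, h4⟩ := abs_le.1 hu
    constructor <;> linarith [ha.1, ha.2]
  obtain ⟨h3, h4⟩ := hM K G hB hP M t W ε hW u hu1
  exact ⟨u, hu1, hG K G hB hP a u _ ε hε hu h3 h4 hu'⟩

end K4H45.PC
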