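import Pool.Agent.K4H45.PC.Spec

namespace K4H45.PC
open Set Polynomial

/-- CPX -/
theorem cpx : S_PO → S_EX → S_SUR → S_NEAR → S_MEMK → S_COV → S_CPX := by
  intro hPO hEX hSUR hNEAR hMEMK hCOV n hn K hK
  obtain ⟨M, t, Wp, ht, hdeg, hnn, hone, hmom⟩ := hPO n hn
  obtain ⟨G, hG⟩ := hEX K hK
  have hn0 : (0 : ℝ) < (n : ℝ) ^ 2 := by
    have : (0 : ℝ) < n := by exact_mod_cast hn
    positivity
  set W : Fin M → ℝ → ℝ := fun j u => (Wp j).eval u with hW
  have hwts : Wts M t W (10 / (n : ℝ) ^ 2) :=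
    { cont := fun j => (Wp j).continuous
      nn := hnn
      one := hone
      mom := hmom }
  set P : ℝ[X] := ∑ j, Wp j * C (G (t j)).re with hP
  set Q : ℝ[X] := ∑ j, Wp j * C (G (t j)).im with hQ
  have hPQ : ∀ u : ℝ, (⟨P.eval u, Q.eval u⟩ : ℂ) = PP t W G u := by
    intro u
    apply Complex.ext
    · simp [hP, PP, hW, eval_finsetSum]
    · simp [hQ, PP, hW, eval_finsetSum]
  refine ⟨P, Q, ?_, ?_, ?_, ?_⟩
  · exact natDegree_sum_le_of_forall_le _ _ fun j _ => (natDegree_mul_C_le _ _).trans (hdeg j)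
  · exact natDegree_sum_le_of_forall_le _ _ fun j _ => (natDegree_mul_C_le _ _).trans (hdeg j)
  · intro u hu
    rw [hPQ]
    obtain ⟨h1, h2⟩ := hMEMK K G hK hG M t W _ hwts u hu
    refine hNEAR K G hK hG u _ _ h1 (by positivity) (h2.trans_lt ?_)
    rw [← mul_div_assoc]
    exact div_lt_div_of_pos_right (by norm_num) hn0
  · intro z hz
    obtain ⟨a, ha, rfl⟩ := hSUR K G hK hG z hz
    obtain ⟨u, hu, h⟩ := hCOV K G hK hG M t W _ hwts a ha
    refine ⟨u, hu, ?_⟩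
    rw [hPQ]
    refine h.trans ?_
    rw [← mul_div_assoc]
    exact div_le_div_of_nonneg_right (by norm_num) hn0.le

end K4H45.PC
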