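import Pool.Agent.K4H45.PC.Spec

namespace K4H45.PC
open Set Polynomial

theorem diff_aux (n m : ℕ) (z : ℂ) :
    ∑ k ∈ Finset.range m, ((n : ℂ) + 1 - 2 * k) * z ^ k
      = (1 - z) * ∑ k ∈ Finset.range m, (((k : ℂ) + 1) * ((n : ℂ) + 1 - k)) * z ^ k
        + m * ((n : ℂ) + 2 - m) * z ^ m := by
  induction m with
  | zero => simp
  | succ m ih =>
    rw [Finset.sum_range_succ, Finset.sum_range_succ, ih]
    push_cast
    ring

theorem q_eq (n : ℕ) (b : ℕ → ℝ) (θ : ℝ) :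
    q n b θ = ∑ k ∈ Finset.range (n + 1), (b k : ℂ) * (Complex.exp ((θ : ℂ) * Complex.I)) ^ k := by
  unfold q
  refine Finset.sum_congr rfl fun k _ => ?_
  rw [← Complex.exp_nat_mul]
  congr 2
  push_cast
  ring

theorem norm_one_sub_exp (θ : ℝ) :
    ‖1 - Complex.exp ((θ : ℂ) * Complex.I)‖ ^ 2 = 2 * (1 - Real.cos θ) := by
  rw [← Complex.normSq_eq_norm_sq, Complex.normSq_apply]
  simp only [Complex.sub_re, Complex.one_re, Complex.exp_ofReal_mul_I_re, Complex.sub_im,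
    Complex.one_im, Complex.exp_ofReal_mul_I_im]
  nlinarith [Real.sin_sq_add_cos_sq θ]

theorem diff : S_DIFF := by
  intro n θ
  have h : q (n + 1) (fun k => (n : ℝ) + 1 - 2 * k) θ
      = (1 - Complex.exp ((θ : ℂ) * Complex.I)) *
        q n (fun k => ((k : ℝ) + 1) * ((n : ℝ) + 1 - k)) θ := by
    rw [q_eq, q_eq]
    have h0 := diff_aux n (n + 1 + 1) (Complex.exp ((θ : ℂ) * Complex.I))
    have e1 : ∑ k ∈ Finset.range (n + 1 + 1), ((((n : ℝ) + 1 - 2 * (k : ℝ) : ℝ)) : ℂ)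
        * (Complex.exp ((θ : ℂ) * Complex.I)) ^ k
        = ∑ k ∈ Finset.range (n + 1 + 1), ((n : ℂ) + 1 - 2 * k)
          * (Complex.exp ((θ : ℂ) * Complex.I)) ^ k := by
      refine Finset.sum_congr rfl fun k _ => ?_
      push_cast
      ring
    have e2 : ∑ k ∈ Finset.range (n + 1), ((((k : ℝ) + 1) * ((n : ℝ) + 1 - k) : ℝ) : ℂ)
        * (Complex.exp ((θ : ℂ) * Complex.I)) ^ k
        = ∑ k ∈ Finset.range (n + 1), (((k : ℂ) + 1) * ((n : ℂ) + 1 - k))
          * (Complex.exp ((θ : ℂ) * Complex.I)) ^ k := by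
      refine Finset.sum_congr rfl fun k _ => ?_
      push_cast
      ring
    rw [e1, e2, h0, Finset.sum_range_succ _ (n + 1)]
    push_cast
    ring
  rw [h, norm_mul, mul_pow, norm_one_sub_exp]

end K4H45.PC
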