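import Pool.Agent.K4H45.PC.Spec

namespace K4H45.PC
open Set Polynomial

theorem ends_dot_sum {M : ℕ} (w : Fin M → ℝ) (z : Fin M → ℂ) (T : ℂ) :
    dot (∑ j, (w j : ℂ) * z j) T = ∑ j, w j * dot (z j) T := by
  simp only [dot, Complex.re_sum, Complex.im_sum, Complex.re_ofReal_mul,
    Complex.im_ofReal_mul, Finset.sum_mul, ← Finset.sum_add_distrib]
  refine Finset.sum_congr rfl fun j _ => by ring

theorem ends_dot_PP {M : ℕ} (t : Fin M → ℝ) (W : Fin M → ℝ → ℝ) (G : ℝ → ℂ) (u : ℝ) (p T : ℂ)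
    (h1 : ∑ j, W j u = 1) :
    dot (PP t W G u - p) T = ∑ j, W j u * dot (G (t j) - p) T := by
  have h : PP t W G u - p = ∑ j, (W j u : ℂ) * (G (t j) - p) := by
    simp only [PP, mul_sub, Finset.sum_sub_distrib, ← Finset.sum_mul]
    rw [← Complex.ofReal_sum, h1]; simp
  rw [h, ends_dot_sum]

theorem ends_abs_dot_le (z w : ℂ) : |dot z w| ≤ ‖z‖ * ‖w‖ := by
  have h := Complex.abs_re_le_norm (z * (starRingEnd ℂ) w)
  have h2 : (z * (starRingEnd ℂ) w).re = dot z w := by
    simp [dot, Complex.mul_re]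
  rw [h2, norm_mul, RCLike.norm_conj] at h
  exact h

theorem ends_six {K : Set ℂ} {G : ℝ → ℂ} (hL : S_LIP) (hB : Base K) (hP : Par K G) (a s : ℝ) :
    |dot (G s - G a) (Complex.I * (xx a - G a))| ≤ 6 := by
  have h1 : ‖G s‖ ≤ 1 := by
    have := hB.ball (hP.mem s); simpa using this
  have h2 : ‖G a‖ ≤ 1 := by
    have := hB.ball (hP.mem a); simpa using this
  have h3 : ‖G s - G a‖ ≤ 2 := by
    have := norm_sub_le (G s) (G a); linarith
  have h4 : ‖Complex.I * (xx a - G a)‖ ≤ 3 := by
    rw [norm_mul, Complex.norm_I, one_mul]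
    exact (hL K G hB hP a a).2.2.2
  calc |dot (G s - G a) (Complex.I * (xx a - G a))|
      ≤ ‖G s - G a‖ * ‖Complex.I * (xx a - G a)‖ := ends_abs_dot_le _ _
    _ ≤ 2 * 3 := mul_le_mul h3 h4 (norm_nonneg _) (by norm_num)
    _ = 6 := by norm_num

theorem ends : S_SIGN → S_LIP → S_ENDS := by
  intro hS hL K G hB hP M t W ε hW a ha
  have ha1 := ha.1
  have ha2 := ha.2
  constructor
  · have hu : a + 1/104 ∈ Icc (-1 : ℝ) 1 := ⟨by linarith, by linarith⟩
    rw [ends_dot_PP t W G _ _ _ (hW.one _ hu)]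
    have key : ∀ j, -64896 * (t j - (a + 1/104)) ^ 2
        ≤ dot (G (t j) - G a) (Complex.I * (xx a - G a)) := by
      intro j
      have h6 := abs_le.1 (ends_six hL hB hP a (t j))
      by_cases h : a ≤ t j ∧ t j ≤ a + 1/52
      · have h0 := (hS K G hB hP a (t j) (by rw [abs_le]; constructor <;> linarith [h.1, h.2])).1 h.1
        nlinarith [sq_nonneg (t j - (a + 1/104))]
      · have hsq : (1/104 : ℝ) ^ 2 ≤ (t j - (a + 1/104)) ^ 2 := by
          rw [not_and_or, not_le, not_le] at h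
          rcases h with h | h
          · nlinarith
          · nlinarith
        nlinarith [h6.1]
    have hm := hW.mom _ hu
    calc -(64896 * ε) ≤ ∑ j, W j (a + 1/104) * (-64896 * (t j - (a + 1/104)) ^ 2) := by
          have : ∑ j, W j (a + 1/104) * (-64896 * (t j - (a + 1/104)) ^ 2)
              = -64896 * ∑ j, W j (a + 1/104) * (t j - (a + 1/104)) ^ 2 := by
            rw [Finset.mul_sum]
            refine Finset.sum_congr rfl fun j _ => by ring
          rw [this]; linarith
      _ ≤ _ := Finset.sum_le_sum fun j _ => mul_le_mul_of_nonneg_left (key j) (hW.nn j _ hu)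
  · have hu : a - 1/104 ∈ Icc (-1 : ℝ) 1 := ⟨by linarith, by linarith⟩
    rw [ends_dot_PP t W G _ _ _ (hW.one _ hu)]
    have key : ∀ j, dot (G (t j) - G a) (Complex.I * (xx a - G a))
        ≤ 64896 * (t j - (a - 1/104)) ^ 2 := by
      intro j
      have h6 := abs_le.1 (ends_six hL hB hP a (t j))
      by_cases h : t j ≤ a ∧ a - 1/52 ≤ t j
      · have h0 := (hS K G hB hP a (t j) (by rw [abs_le]; constructor <;> linarith [h.1, h.2])).2 h.1
        nlinarith [sq_nonneg (t j - (a - 1/104))]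
      · have hsq : (1/104 : ℝ) ^ 2 ≤ (t j - (a - 1/104)) ^ 2 := by
          rw [not_and_or, not_le, not_le] at h
          rcases h with h | h
          · nlinarith
          · nlinarith
        nlinarith [h6.2]
    have hm := hW.mom _ hu
    calc _ ≤ ∑ j, W j (a - 1/104) * (64896 * (t j - (a - 1/104)) ^ 2) :=
          Finset.sum_le_sum fun j _ => mul_le_mul_of_nonneg_left (key j) (hW.nn j _ hu)
      _ = 64896 * ∑ j, W j (a - 1/104) * (t j - (a - 1/104)) ^ 2 := by
            rw [Finset.mul_sum]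
            refine Finset.sum_congr rfl fun j _ => by ring
      _ ≤ 64896 * ε := by linarith

end K4H45.PC
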