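import Pool.Agent.K4H45.PC.Spec

namespace K4H45.PC
open Set

/-- EX: existence of the metric projection -/
theorem ex : S_EX := by
  intro K hK
  have key : ∀ u : ℝ, ∃ g : ℂ, g ∈ K ∧ ∀ y ∈ K, dot (y - g) (xx u - g) ≤ 0 := by
    intro u
    generalize xx u = x
    have hc : ContinuousOn (fun z : ℂ => Complex.normSq (x - z)) K :=
      (Complex.continuous_normSq.comp (continuous_const.sub continuous_id)).continuousOn
    obtain ⟨g, hg, hmin⟩ := hK.cpt.exists_isMinOn hK.ne hc
    refine ⟨g, hg, fun y hy => ?_⟩
    by_contra hd
    push Not at hd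
    have hle : ∀ t : ℝ, 0 ≤ t → t ≤ 1 →
        0 ≤ t * (t * Complex.normSq (y - g) - 2 * dot (y - g) (x - g)) := by
      intro t ht0 ht1
      have hmem : (1 - t) • g + t • y ∈ K :=
        hK.cvx hg hy (by linarith) ht0 (by ring)
      have h := hmin hmem
      simp only [Complex.normSq_apply, Complex.sub_re, Complex.sub_im, Complex.add_re,
        Complex.add_im, Complex.real_smul, Complex.mul_re, Complex.mul_im, Complex.ofReal_re,
        Complex.ofReal_im, dot] at h ⊢
      nlinarith [h]
    have hn : 0 ≤ Complex.normSq (y - g) := Complex.normSq_nonneg _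
    rcases le_or_gt (Complex.normSq (y - g)) (dot (y - g) (x - g)) with h1 | h1
    · have := hle 1 (by norm_num) le_rfl
      linarith
    · have hpos : 0 < Complex.normSq (y - g) := by linarith
      have h2 := hle (dot (y - g) (x - g) / Complex.normSq (y - g)) (by positivity)
        ((div_le_one hpos).2 h1.le)
      have h3 : dot (y - g) (x - g) / Complex.normSq (y - g) * Complex.normSq (y - g) =
        dot (y - g) (x - g) := div_mul_cancel₀ _ hpos.ne'
      rw [h3] at h2
      have h4 : 0 < dot (y - g) (x - g) / Complex.normSq (y - g) := div_pos hd hpos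
      nlinarith
  choose G hG using key
  exact ⟨G, ⟨fun u => (hG u).1, fun u => (hG u).2⟩⟩

end K4H45.PC
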