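import Pool.Agent.K4H45.PC.Spec

namespace K4H45.PC
open Set Polynomial

noncomputable section

theorem fin_dist_le (x y : ℝ × ℝ) (z w : ℂ) (h1 : x.1 - y.1 = (z - w).re)
    (h2 : x.2 - y.2 = (z - w).im) : dist x y ≤ ‖z - w‖ := by
  rw [Prod.dist_eq]
  apply max_le
  · rw [Real.dist_eq, h1]; exact Complex.abs_re_le_norm _
  · rw [Real.dist_eq, h2]; exact Complex.abs_im_le_norm _

theorem fin (h1 : S_CPX) (h2 : S_BALL) : S_FIN := by
  intro n hn F hF
  obtain ⟨⟨K2, hK2c, hK2v, hK2i, hFK⟩, c, hcc, hci, hc01, hFc, hvar⟩ := hF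
  have hb0 : (0 : ℝ) ∈ Icc (0 : ℝ) 1 := ⟨le_rfl, zero_le_one⟩
  let e : ℂ ≃ₜ ℝ × ℝ := Complex.equivRealProdCLM.toHomeomorph
  have he : ∀ z : ℂ, e z = (z.re, z.im) := fun z => rfl
  have hfr : frontier (e ⁻¹' K2) = e ⁻¹' (frontier K2) := (e.preimage_frontier K2).symm
  have hK1c : IsCompact (e ⁻¹' K2) := e.isCompact_preimage.2 hK2c
  have hK1v : Convex ℝ (e ⁻¹' K2) :=
    hK2v.linear_preimage Complex.equivRealProdCLM.toLinearEquiv.toLinearMap
  have hb1 : frontier (e ⁻¹' K2) ⊆ Metric.closedBall (c 0) 1 := by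
    intro z hz
    rw [hfr] at hz
    have hz2 : e z ∈ F := by rw [hFK]; exact hz
    rw [hFc] at hz2
    obtain ⟨s, hs, hse⟩ := hz2
    have hzc : z = c s := by
      rw [he] at hse
      apply Complex.ext
      · exact (congrArg Prod.fst hse).symm
      · exact (congrArg Prod.snd hse).symm
    rw [Metric.mem_closedBall, hzc]
    have h3 := eVariationOn.edist_le c hs hb0
    rw [hvar] at h3
    rw [edist_dist] at h3
    have h4 : ENNReal.ofReal (dist (c s) (c 0)) ≤ ENNReal.ofReal 1 := by simpa using h3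
    exact (ENNReal.ofReal_le_ofReal_iff zero_le_one).1 h4
  have hball := h2 (e ⁻¹' K2) (c 0) hK1c hK1v hb1
  let T : ℂ ≃ₜ ℂ := Homeomorph.addRight (c 0)
  have hT : ∀ z : ℂ, T z = z + c 0 := fun z => rfl
  have hfr2 : frontier (T ⁻¹' (e ⁻¹' K2)) = T ⁻¹' (e ⁻¹' (frontier K2)) := by
    rw [← hfr]; exact (T.preimage_frontier _).symm
  have hbase : Base (T ⁻¹' (e ⁻¹' K2)) := by
    refine ⟨T.isCompact_preimage.2 hK1c, ?_, ?_, ?_⟩
    · exact hK1v.translate_preimage_left (c 0)
    · obtain ⟨x, hx⟩ := hK2i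
      refine ⟨e.symm x - c 0, ?_⟩
      change e (T (e.symm x - c 0)) ∈ K2
      rw [hT, sub_add_cancel, e.apply_symm_apply]
      exact interior_subset hx
    · intro z hz
      have h3 := hball hz
      rw [Metric.mem_closedBall, hT, dist_eq_norm] at h3
      rw [Metric.mem_closedBall, dist_eq_norm]
      simpa using h3
  obtain ⟨P, Q, hP, hQ, hA, hB⟩ := h1 n hn _ hbase
  have hdeg : ∀ (R : ℝ[X]) (r : ℝ), R.natDegree ≤ n →
      (R.comp (C 2 * X - C 1) + C r).natDegree ≤ n := by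
    intro R r hR
    refine (natDegree_add_C).le.trans ?_
    refine natDegree_comp_le.trans ?_
    have h3 : (C (2 : ℝ) * X - C 1).natDegree ≤ 1 := by
      rw [sub_eq_add_neg, ← C_neg]
      exact natDegree_linear_le
    calc R.natDegree * (C (2 : ℝ) * X - C 1).natDegree ≤ R.natDegree * 1 :=
          Nat.mul_le_mul_left _ h3
      _ ≤ n := by omega
  have hev : ∀ (R : ℝ[X]) (r s : ℝ),
      (R.comp (C 2 * X - C 1) + C r).eval s = R.eval (2 * s - 1) + r := by
    intro R r s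
    simp [eval_comp]
  refine ⟨P.comp (C 2 * X - C 1) + C (c 0).re, Q.comp (C 2 * X - C 1) + C (c 0).im,
    hdeg P _ hP, hdeg Q _ hQ, ?_⟩
  have hr : (0 : ℝ) ≤ 1000000 / (n : ℝ) ^ 2 := by positivity
  apply Metric.hausdorffDist_le_of_mem_dist hr
  · intro x hx
    have hz : e.symm x - c 0 ∈ frontier (T ⁻¹' (e ⁻¹' K2)) := by
      rw [hfr2]
      change e (T (e.symm x - c 0)) ∈ frontier K2
      rw [hT, sub_add_cancel, e.apply_symm_apply, ← hFK]
      exact hx
    obtain ⟨u, hu, hd⟩ := hB _ hz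
    refine ⟨_, ⟨(u + 1) / 2, ⟨by linarith [hu.1], by linarith [hu.2]⟩, rfl⟩, ?_⟩
    refine le_trans (fin_dist_le _ _ (e.symm x - c 0) ⟨P.eval u, Q.eval u⟩ ?_ ?_) hd
    · simp only [hev]
      have h5 : x.1 = (e.symm x).re := by
        have := congrArg Prod.fst (e.apply_symm_apply x)
        rw [he] at this
        exact this.symm
      have h6 : 2 * ((u + 1) / 2) - 1 = u := by ring
      rw [h6, h5]
      simp only [Complex.sub_re]
      ring
    · simp only [hev]
      have h5 : x.2 = (e.symm x).im := by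
        have := congrArg Prod.snd (e.apply_symm_apply x)
        rw [he] at this
        exact this.symm
      have h6 : 2 * ((u + 1) / 2) - 1 = u := by ring
      rw [h6, h5]
      simp only [Complex.sub_im]
      ring
  · rintro y ⟨s, hs, rfl⟩
    obtain ⟨z, hz, hd⟩ := hA (2 * s - 1) ⟨by linarith [hs.1], by linarith [hs.2]⟩
    rw [hfr2] at hz
    have hz2 : e (T z) ∈ F := by rw [hFK]; exact hz
    refine ⟨e (T z), hz2, ?_⟩
    rw [dist_comm]
    refine le_trans (fin_dist_le _ _ z ⟨P.eval (2 * s - 1), Q.eval (2 * s - 1)⟩ ?_ ?_) hd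
    · simp only [hev, he, hT, Complex.add_re, Complex.sub_re]
      ring
    · simp only [hev, he, hT, Complex.add_im, Complex.sub_im]
      ring

end
end K4H45.PC
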