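import Pool.Agent.K4H45.PC.Spec

/-! Piece GEO: a point of `K` with small tangential and normal defect is near `G a`. -/

namespace K4H45.PC
open Set Polynomial

namespace GeoAux

theorem real_part (y1 y2 v1 v2 w1 w2 ε : ℝ) (hε : 0 ≤ ε)
    (hw : (w1 - v1) ^ 2 + (w2 - v2) ^ 2 ≤ 1 / 16) (hN : 1 ≤ v1 ^ 2 + v2 ^ 2)
    (hA : 0 ≤ y1 * v1 + y2 * v2) (hC : y1 * w1 + y2 * w2 ≤ 338 * ε)
    (hB : |-(y1 * v2) + y2 * v1| ≤ 64896 * ε) :
    y1 ^ 2 + y2 ^ 2 ≤ (87000 * ε) ^ 2 := by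
  obtain ⟨N, hNd⟩ : ∃ N, N = v1 ^ 2 + v2 ^ 2 := ⟨_, rfl⟩
  obtain ⟨A, hAd⟩ : ∃ A, A = y1 * v1 + y2 * v2 := ⟨_, rfl⟩
  obtain ⟨B, hBd⟩ : ∃ B, B = -(y1 * v2) + y2 * v1 := ⟨_, rfl⟩
  obtain ⟨C, hCd⟩ : ∃ C, C = y1 * w1 + y2 * w2 := ⟨_, rfl⟩
  obtain ⟨α, hαd⟩ : ∃ α, α = w1 * v1 + w2 * v2 := ⟨_, rfl⟩
  obtain ⟨β, hβd⟩ : ∃ β, β = -(w1 * v2) + w2 * v1 := ⟨_, rfl⟩
  rw [← hNd] at hN
  rw [← hAd] at hA
  rw [← hBd] at hB
  rw [← hCd] at hC
  have id1 : N * C = α * A + β * B := by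
    rw [hNd, hCd, hαd, hAd, hβd, hBd]; ring
  have id2 : (y1 ^ 2 + y2 ^ 2) * N = A ^ 2 + B ^ 2 := by
    rw [hNd, hAd, hBd]; ring
  have id3 : (α - N) ^ 2 + β ^ 2 = ((w1 - v1) ^ 2 + (w2 - v2) ^ 2) * N := by
    rw [hNd, hαd, hβd]; ring
  have hN0 : 0 ≤ N := by linarith
  have h4 : (α - N) ^ 2 + β ^ 2 ≤ (N / 4) ^ 2 := by
    rw [id3]
    nlinarith
  have h5 : |α - N| ≤ N / 4 := abs_le_of_sq_le_sq (by nlinarith [sq_nonneg β]) (by linarith)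
  have h6 : |β| ≤ N / 4 := abs_le_of_sq_le_sq (by nlinarith [sq_nonneg (α - N)]) (by linarith)
  have h7 : 3 / 4 * N ≤ α := by
    have := (abs_le.1 h5).1
    linarith
  have h8 : -(β * B) ≤ N / 4 * (64896 * ε) := by
    calc -(β * B) ≤ |β * B| := neg_le_abs _
      _ = |β| * |B| := abs_mul _ _
      _ ≤ N / 4 * (64896 * ε) := mul_le_mul h6 hB (abs_nonneg _) (by linarith)
  have h9 : 3 / 4 * N * A ≤ N * (338 * ε) + N / 4 * (64896 * ε) := by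
    have e1 : 3 / 4 * N * A ≤ α * A := mul_le_mul_of_nonneg_right h7 hA
    have e2 : N * C ≤ N * (338 * ε) := mul_le_mul_of_nonneg_left hC hN0
    linarith
  have h10 : A ≤ 22083 * ε := by
    by_contra hh
    push Not at hh
    have : N * (22083 * ε) < N * A := mul_lt_mul_of_pos_left hh (by linarith)
    nlinarith
  have h11 : A ^ 2 ≤ (22083 * ε) ^ 2 := by
    apply pow_le_pow_left₀ hA h10
  have h12 : B ^ 2 ≤ (64896 * ε) ^ 2 := by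
    rw [← sq_abs]
    exact pow_le_pow_left₀ (abs_nonneg _) hB 2
  have h13 : y1 ^ 2 + y2 ^ 2 ≤ (y1 ^ 2 + y2 ^ 2) * N := by
    nlinarith [sq_nonneg y1, sq_nonneg y2]
  rw [id2] at h13
  nlinarith [sq_nonneg ε]

end GeoAux

theorem geo : S_LIP → S_GEO := by
  intro hL K G hK hG a u P ε hε hau hP h1 h2
  obtain ⟨-, l2, -, -⟩ := hL K G hK hG u a
  obtain ⟨-, -, l5, -⟩ := hL K G hK hG a a
  have s1 := hG.sup a P hP
  have s2 := hG.sup u (G a) (hG.mem a)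
  have hVv : ‖(xx u - G u) - (xx a - G a)‖ ≤ 1 / 4 := by linarith
  have hV2 : ‖(xx u - G u) - (xx a - G a)‖ ^ 2 ≤ 1 / 16 := by
    have := pow_le_pow_left₀ (norm_nonneg _) hVv 2
    linarith
  have hv2 : 1 ≤ ‖xx a - G a‖ ^ 2 := one_le_pow₀ l5
  rw [Complex.sq_norm, Complex.normSq_apply] at hV2 hv2
  simp only [dot, Complex.sub_re, Complex.sub_im, Complex.mul_re, Complex.mul_im, Complex.I_re, Complex.I_im] at *
  have key := GeoAux.real_part ((G a).re - P.re) ((G a).im - P.im) ((xx a).re - (G a).re) ((xx a).im - (G a).im)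
    ((xx u).re - (G u).re) ((xx u).im - (G u).im) ε hε (by linarith) (by linarith) (by linarith) (by linarith)
    (by
      rw [← abs_neg]
      refine le_of_eq_of_le ?_ h2
      congr 1
      ring)
  have h3 : ‖G a - P‖ ^ 2 ≤ (87000 * ε) ^ 2 := by
    rw [Complex.sq_norm, Complex.normSq_apply]
    simp only [Complex.sub_re, Complex.sub_im]
    linarith
  exact (abs_le_of_sq_le_sq' h3 (by positivity)).2

end K4H45.PC
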