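import Pool.Agent.K4H45.PC.Lip

/-! Piece KEY for MP_24cacf_an. -/

namespace K4H45.PC
open Set Polynomial

theorem key : S_LIP → S_KEY := by
  intro hL K G hK hG u t
  obtain ⟨l1, l2, -, -⟩ := hL K G hK hG u t
  have h1 := hG.sup u (G t) (hG.mem t)
  have h2 := hG.sup t (G u) (hG.mem u)
  constructor
  · simp only [dot, Complex.sub_re, Complex.sub_im] at *
    linarith
  · have h3 : dot (G u - G t) (xx u - G u) =
        dot (G u - G t) ((xx u - G u) - (xx t - G t)) + dot (G u - G t) (xx t - G t) := by
      simp only [dot, Complex.sub_re, Complex.sub_im]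
      ring
    have h4 := (le_abs_self _).trans (abs_dot_le (G u - G t) ((xx u - G u) - (xx t - G t)))
    have h5 : ‖G u - G t‖ * ‖(xx u - G u) - (xx t - G t)‖ ≤ (13 * |u - t|) * (26 * |u - t|) :=
      mul_le_mul l1 l2 (norm_nonneg _) (by positivity)
    have h6 : (13 * |u - t|) * (26 * |u - t|) = 338 * (u - t) ^ 2 := by
      rw [← sq_abs (u - t)]
      ring
    rw [h3]
    linarith

end K4H45.PC
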