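import Pool.Agent.K4H45.PC.Spec

/-! Pieces LIP and KEY for MP_24cacf_an. -/

namespace K4H45.PC
open Set Polynomial

theorem dot_eq (z w : ℂ) : dot z w = (z * (starRingEnd ℂ) w).re := by
  simp [dot, Complex.mul_re]

theorem abs_dot_le (z w : ℂ) : |dot z w| ≤ ‖z‖ * ‖w‖ := by
  rw [dot_eq]
  refine (Complex.abs_re_le_norm _).trans ?_
  rw [norm_mul, Complex.norm_conj]

theorem dot_self (z : ℂ) : dot z z = ‖z‖ ^ 2 := by
  rw [Complex.sq_norm, Complex.normSq_apply, dot]

theorem norm_xx (u : ℝ) : ‖xx u‖ = 2 := by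
  unfold xx
  rw [norm_mul, Complex.norm_exp_ofReal_mul_I]
  simp

theorem norm_xx_sub (u t : ℝ) : ‖xx u - xx t‖ ≤ 13 * |u - t| := by
  have h1 : xx u - xx t = xx t * (Complex.exp (Complex.I * ((2 * Real.pi * (u - t) : ℝ) : ℂ)) - 1) := by
    unfold xx
    have h2 : Complex.exp ((2 * Real.pi * u : ℝ) * Complex.I) =
        Complex.exp ((2 * Real.pi * t : ℝ) * Complex.I) *
          Complex.exp (Complex.I * ((2 * Real.pi * (u - t) : ℝ) : ℂ)) := by
      rw [← Complex.exp_add]
      congr 1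
      push_cast
      ring
    rw [h2]
    ring
  rw [h1, norm_mul, norm_xx]
  have h3 := Real.norm_exp_I_mul_ofReal_sub_one_le (x := 2 * Real.pi * (u - t))
  have h4 : ‖2 * Real.pi * (u - t)‖ = 2 * Real.pi * |u - t| := by
    rw [norm_mul, Real.norm_eq_abs, Real.norm_eq_abs, abs_of_pos (by positivity)]
  rw [h4] at h3
  have h5 : 4 * Real.pi ≤ 13 := by
    have := Real.pi_lt_d2
    linarith
  have h6 : 4 * Real.pi * |u - t| ≤ 13 * |u - t| :=
    mul_le_mul_of_nonneg_right h5 (abs_nonneg _)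
  linarith

theorem lip : S_LIP := by
  intro K G hK hG u t
  have h1 := hG.sup u (G t) (hG.mem t)
  have h2 := hG.sup t (G u) (hG.mem u)
  have h3 : ‖G u - G t‖ ≤ ‖xx u - xx t‖ := by
    have h4 : ‖G u - G t‖ ^ 2 ≤ dot (G u - G t) (xx u - xx t) := by
      rw [← dot_self]
      simp only [dot, Complex.sub_re, Complex.sub_im] at *
      linarith
    have h5 := (le_abs_self _).trans (abs_dot_le (G u - G t) (xx u - xx t))
    have h6 : ‖G u - G t‖ * ‖G u - G t‖ ≤ ‖G u - G t‖ * ‖xx u - xx t‖ := by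
      rw [← sq]
      exact h4.trans h5
    rcases eq_or_lt_of_le (norm_nonneg (G u - G t)) with h7 | h7
    · rw [← h7]
      exact norm_nonneg _
    · exact le_of_mul_le_mul_left h6 h7
  have h8 := norm_xx_sub u t
  refine ⟨h3.trans h8, ?_, ?_, ?_⟩
  · have h9 : (xx u - G u) - (xx t - G t) = (xx u - xx t) - (G u - G t) := by ring
    rw [h9]
    refine (norm_sub_le _ _).trans ?_
    linarith [h3.trans h8]
  · have h10 : ‖G u‖ ≤ 1 := by
      have := hK.ball (hG.mem u)
      rwa [mem_closedBall_zero_iff] at this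
    have h11 := norm_sub_norm_le (xx u) (G u)
    rw [norm_xx] at h11
    linarith
  · have h10 : ‖G u‖ ≤ 1 := by
      have := hK.ball (hG.mem u)
      rwa [mem_closedBall_zero_iff] at this
    have h11 := norm_sub_le (xx u) (G u)
    rw [norm_xx] at h11
    linarith

end K4H45.PC
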