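import Pool.Agent.K4H45.PC.Spec

/-!
MP_24cacf_an, lower bound e_n ≥ c / n^2 (known; to have the order of magnitude in one theorem).
Regular m-gon, m = n + 2.
-/
namespace K4H45.PC
open Set Polynomial

noncomputable section

/-- normal directions of the regular m-gon -/
def nn (m k : ℕ) : ℂ := Complex.exp ((2 * Real.pi * k / m : ℝ) * Complex.I)

/-- gauge of the regular m-gon of inradius one -/
def gg (m : ℕ) (z : ℂ) : ℝ := ⨆ k : Fin m, dot z (nn m k)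

/-- vertices of the m-gon of inradius one -/
def vv (m k : ℕ) : ℂ :=
  ((1 / Real.cos (Real.pi / m) : ℝ) : ℂ) *
    Complex.exp ((2 * Real.pi * k / m + Real.pi / m : ℝ) * Complex.I)

/-- open sector between the directions k and k + 1 -/
def sect (m k : ℕ) (z : ℂ) : Prop :=
  0 < dot z (Complex.I * nn m k) ∧ dot z (Complex.I * nn m (k + 1)) < 0

/-- GGB: basic properties of the gauge -/
def S_GGB : Prop := ∀ m : ℕ, 3 ≤ m →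
  (∀ z w, |gg m z - gg m w| ≤ ‖z - w‖) ∧ (∀ (s : ℝ) (z : ℂ), 0 ≤ s → gg m (s * z) = s * gg m z) ∧
  (∀ z w, gg m (z + w) ≤ gg m z + gg m w) ∧ (∀ z, gg m z ≤ ‖z‖) ∧
  (∀ k, k < m → gg m (nn m k) = 1)

/-- GGL: lower bound of the gauge (some direction makes an angle ≤ π/m ≤ π/3 with z) -/
def S_GGL : Prop := ∀ m : ℕ, 3 ≤ m → ∀ z, ‖z‖ / 2 ≤ gg m z

/-- VERT -/
def S_VERT : Prop := ∀ m k : ℕ, 3 ≤ m → k < m →
  gg m (vv m k) = 1 ∧ 1 + 2 / (m : ℝ) ^ 2 ≤ ‖vv m k‖ ∧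
  ∀ (z : ℂ) (lam : ℝ), 0 < lam → ‖z - lam * vv m k‖ < lam / (m : ℝ) ^ 2 → sect m k z

/-- SECT -/
def S_SECT : Prop := ∀ m : ℕ, 3 ≤ m →
  (∀ k l, k < m → l < m → k ≠ l → ∀ z, sect m k z → ¬ sect m l z) ∧
  (∀ z : ℂ, z ≠ 0 → (∃ k, k < m ∧ sect m k z) ∨ ∃ k, k < m ∧ ∃ r : ℝ, 0 < r ∧ z = r * nn m k)

/-- CROSS: `theorem cross : S_SECT → S_CROSS` (connectedness; the sectors are open) -/
def S_CROSS : Prop := ∀ m : ℕ, 3 ≤ m → ∀ γ : ℝ → ℂ, Continuous γ → ∀ s t : ℝ, s ≤ t →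
  ∀ k l, k < m → l < m → k ≠ l → sect m k (γ s) → sect m l (γ t) →
  ∃ u ∈ Icc s t, γ u = 0 ∨ ∃ j, j < m ∧ ∃ r : ℝ, 0 < r ∧ γ u = r * nn m j

/-- ROOTS: m points of positivity separated by points of negativity -/
def S_ROOTS : Prop := ∀ (g : ℝ[X]) (m : ℕ) (τ : Fin m → ℝ), Function.Injective τ →
  (∀ k, 0 < g.eval (τ k)) → (∀ k l, τ k < τ l → ∃ u, τ k < u ∧ u < τ l ∧ g.eval u < 0) →
  2 * (m - 1) ≤ g.natDegree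

/-- LOWC: `theorem lowc : S_GGB → S_VERT → S_SECT → S_CROSS → S_ROOTS → S_LOWC` -/
def S_LOWC : Prop := ∀ n : ℕ, 1 ≤ n → ∀ P Q : ℝ[X], P.natDegree ≤ n → Q.natDegree ≤ n →
  ∀ lam δ : ℝ, 0 < lam →
  (∀ s ∈ Icc (0 : ℝ) 1, ∃ z, gg (n + 2) z = lam ∧ ‖(⟨P.eval s, Q.eval s⟩ : ℂ) - z‖ ≤ δ) →
  (∀ z, gg (n + 2) z = lam → ∃ s ∈ Icc (0 : ℝ) 1, ‖(⟨P.eval s, Q.eval s⟩ : ℂ) - z‖ ≤ δ) →
  lam / ((n : ℝ) + 2) ^ 2 ≤ δ

/-- KM: `theorem km : S_GGB → S_GGL → S_KM` -/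
def S_KM : Prop := ∀ m : ℕ, 3 ≤ m → ∀ lam : ℝ, 0 < lam →
  IsCompact {z | gg m z ≤ lam} ∧ Convex ℝ {z | gg m z ≤ lam} ∧
  (interior {z | gg m z ≤ lam}).Nonempty ∧ frontier {z | gg m z ≤ lam} = {z | gg m z = lam}

/-- PRM: `theorem prm : S_GGB → S_GGL → S_PRM`, radial parametrisation c s = e(s) / gg (e(s)) -/
def S_PRM : Prop := ∀ m : ℕ, 3 ≤ m → ∃ c : ℝ → ℂ, ContinuousOn c (Icc 0 1) ∧ InjOn c (Ico 0 1) ∧
  c 0 = c 1 ∧ {z | gg m z = 1} = c '' Icc 0 1 ∧ eVariationOn c (Icc 0 1) ≤ 40 ∧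
  eVariationOn c (Icc 0 1) ≠ 0

/-- PG: `theorem pg : S_GGB → S_KM → S_PRM → S_PG` (scale by 1 / length) -/
def S_PG : Prop := ∀ m : ℕ, 3 ≤ m → ∃ lam : ℝ, 1 / 40 ≤ lam ∧
  IsCurve ((fun z : ℂ => (z.re, z.im)) '' {z | gg m z = lam})

/-- LOW: `theorem low : S_PG → S_LOWC → S_LOW` -/
def S_LOW : Prop := ∀ n : ℕ, 1 ≤ n → ∃ F : Set (ℝ × ℝ), IsCurve F ∧ ∀ P Q : ℝ[X],
  P.natDegree ≤ n → Q.natDegree ≤ n →
  1 / (1500 * (n : ℝ) ^ 2) ≤ Metric.hausdorffDist F (curve P Q)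

end
end K4H45.PC
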