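import Pool.Agent.K4H45.PC.Spec

set_option autoImplicit false

namespace K4H45.PC
open Set Polynomial

theorem memk : S_KEY → S_MEMK := by
  intro hkey K G hK hG M t W ε hW u hu
  have hsum := hW.one u hu
  have hmem : PP t W G u ∈ K := by
    have h := hK.cvx.sum_mem (t := Finset.univ) (w := fun j => W j u) (z := fun j => G (t j))
      (fun j _ => hW.nn j u hu) hsum (fun j _ => hG.mem (t j))
    have he : PP t W G u = ∑ j, W j u • G (t j) := by
      unfold PP
      refine Finset.sum_congr rfl (fun j _ => ?_)
      rw [Complex.real_smul]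
    rw [he]; exact h
  refine ⟨hmem, ?_⟩
  have hlin : dot (G u - PP t W G u) (xx u - G u) =
      ∑ j, W j u * dot (G u - G (t j)) (xx u - G u) := by
    have hre : (PP t W G u).re = ∑ j, W j u * (G (t j)).re := by
      unfold PP
      rw [Complex.re_sum]
      refine Finset.sum_congr rfl (fun j _ => ?_)
      simp
    have him : (PP t W G u).im = ∑ j, W j u * (G (t j)).im := by
      unfold PP
      rw [Complex.im_sum]
      refine Finset.sum_congr rfl (fun j _ => ?_)
      simp
    have h1 : (G u - PP t W G u).re = ∑ j, W j u * (G u - G (t j)).re := by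
      simp only [Complex.sub_re, mul_sub, Finset.sum_sub_distrib, ← Finset.sum_mul, hsum, hre,
        one_mul]
    have h2 : (G u - PP t W G u).im = ∑ j, W j u * (G u - G (t j)).im := by
      simp only [Complex.sub_im, mul_sub, Finset.sum_sub_distrib, ← Finset.sum_mul, hsum, him,
        one_mul]
    unfold dot
    rw [h1, h2, Finset.sum_mul, Finset.sum_mul, ← Finset.sum_add_distrib]
    refine Finset.sum_congr rfl (fun j _ => ?_)
    ring
  rw [hlin]
  calc ∑ j, W j u * dot (G u - G (t j)) (xx u - G u)
      ≤ ∑ j, W j u * (338 * (t j - u) ^ 2) := by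
        refine Finset.sum_le_sum (fun j _ => ?_)
        apply mul_le_mul_of_nonneg_left _ (hW.nn j u hu)
        have := (hkey K G hK hG u (t j)).2
        calc dot (G u - G (t j)) (xx u - G u) ≤ 338 * (u - t j) ^ 2 := this
          _ = 338 * (t j - u) ^ 2 := by ring
    _ = 338 * ∑ j, W j u * (t j - u) ^ 2 := by
        rw [Finset.mul_sum]
        refine Finset.sum_congr rfl (fun j _ => ?_)
        ring
    _ ≤ 338 * ε := by
        have := hW.mom u hu
        linarith

end K4H45.PC
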