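import Pool.Agent.K4H45.PC.Spec

namespace K4H45.PC
open Set Polynomial

theorem near : S_LIP → S_NEAR := by
  intro hL K G hK hG u P δ hP hδ h
  have hv : 1 ≤ ‖xx u - G u‖ := (hL K G hK hG u u).2.2.1
  obtain ⟨v, hvdef⟩ : ∃ v : ℂ, v = xx u - G u := ⟨_, rfl⟩
  rw [← hvdef] at hv h
  have hv0 : 0 < ‖v‖ := lt_of_lt_of_le one_pos hv
  obtain ⟨c, hcdef⟩ : ∃ c : ℝ, c = δ / ‖v‖ ^ 2 := ⟨_, rfl⟩
  have hc0 : 0 ≤ c := by rw [hcdef]; positivity
  have hn : ‖v‖ ^ 2 = v.re * v.re + v.im * v.im := by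
    rw [Complex.sq_norm, Complex.normSq_apply]
  have hc : c * (v.re * v.re + v.im * v.im) = δ := by
    rw [← hn, hcdef, div_mul_cancel₀]
    positivity
  obtain ⟨z', hz'def⟩ : ∃ z' : ℂ, z' = P + (c : ℂ) * v := ⟨_, rfl⟩
  have hz' : z' ∉ K := by
    intro hz
    have h1 := hG.sup u z' hz
    rw [← hvdef] at h1
    have e : dot (z' - G u) v = c * (v.re * v.re + v.im * v.im) - dot (G u - P) v := by
      rw [hz'def]
      unfold dot
      simp only [Complex.sub_re, Complex.sub_im, Complex.add_re, Complex.add_im, Complex.re_ofReal_mul,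
        Complex.im_ofReal_mul]
      ring
    rw [e, hc] at h1
    linarith
  have hseg : (segment ℝ P z' ∩ frontier K).Nonempty := by
    by_contra hne
    rw [Set.not_nonempty_iff_eq_empty] at hne
    have hpre := (convex_segment (𝕜 := ℝ) P z').isPreconnected
    have hcl : IsClosed K := hK.cpt.isClosed
    have hcov : segment ℝ P z' ⊆ interior K ∪ Kᶜ := by
      intro x hx
      by_cases hxK : x ∈ K
      · left
        by_contra hxi
        have : x ∈ segment ℝ P z' ∩ frontier K :=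
          ⟨hx, by rw [hcl.frontier_eq]; exact ⟨hxK, hxi⟩⟩
        rw [hne] at this
        exact this
      · right; exact hxK
    have hPi : P ∈ interior K := by
      rcases hcov (left_mem_segment ℝ P z') with h1 | h1
      · exact h1
      · exact absurd hP h1
    obtain ⟨x, _, hx1, hx2⟩ := hpre (interior K) Kᶜ isOpen_interior hcl.isOpen_compl hcov
      ⟨P, left_mem_segment ℝ P z', hPi⟩ ⟨z', right_mem_segment ℝ P z', hz'⟩
    exact hx2 (interior_subset hx1)
  obtain ⟨z, hz1, hz2⟩ := hseg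
  refine ⟨z, hz2, ?_⟩
  rw [segment_eq_image'] at hz1
  obtain ⟨s, hs, rfl⟩ := hz1
  have e1 : P + s • (z' - P) - P = ((s * c : ℝ) : ℂ) * v := by
    rw [hz'def]
    simp only [Complex.real_smul]
    push_cast
    ring
  simp only [e1]
  rw [norm_mul, Complex.norm_real, Real.norm_eq_abs, abs_of_nonneg (mul_nonneg hs.1 hc0)]
  have h2 : c * ‖v‖ ≤ δ := by
    have h3 : c * ‖v‖ ^ 2 = δ := by rw [hn]; exact hc
    have h4 : c * ‖v‖ * 1 ≤ c * ‖v‖ * ‖v‖ := mul_le_mul_of_nonneg_left hv (by positivity)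
    nlinarith
  have h5 : s * (c * ‖v‖) ≤ 1 * (c * ‖v‖) := mul_le_mul_of_nonneg_right hs.2 (by positivity)
  linarith

end K4H45.PC
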