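import Pool.Agent.K4H45.PC.Spec

namespace K4H45.PC
open Set Polynomial

theorem pars_geom (M : ℕ) (k l : ℕ) (hk : k < M) (hl : l < M) (hkl : k ≠ l) :
    ∑ j ∈ Finset.range M,
      Complex.exp ((2 * Real.pi * ((k : ℝ) - l) / M : ℝ) * Complex.I) ^ j = 0 := by
  set ζ : ℂ := Complex.exp ((2 * Real.pi * ((k : ℝ) - l) / M : ℝ) * Complex.I) with hζ
  have hM : (M : ℝ) ≠ 0 := by
    have : 0 < M := by omega
    positivity
  have hMc : (M : ℂ) ≠ 0 := by exact_mod_cast hM
  have h1 : ζ ^ M = 1 := by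
    rw [hζ, ← Complex.exp_nat_mul, Complex.exp_eq_one_iff]
    refine ⟨(k : ℤ) - l, ?_⟩
    push_cast
    field_simp
  have h2 : ζ ≠ 1 := by
    intro h
    rw [hζ, Complex.exp_eq_one_iff] at h
    obtain ⟨m, hm⟩ := h
    have h3 : ((2 * Real.pi * ((k : ℝ) - l) / M : ℝ) : ℂ) = ((m * (2 * Real.pi) : ℝ) : ℂ) := by
      have hI : Complex.I ≠ 0 := Complex.I_ne_zero
      apply mul_right_cancel₀ hI
      rw [hm]
      push_cast
      ring
    have h4 : (2 * Real.pi * ((k : ℝ) - l) / M : ℝ) = m * (2 * Real.pi) := by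
      exact_mod_cast h3
    have hpi : (2 * Real.pi : ℝ) ≠ 0 := by positivity
    have h5 : ((k : ℝ) - l) = m * M := by
      field_simp at h4
      nlinarith [h4, Real.pi_pos]
    have h6 : ((k : ℤ) - l) = m * M := by exact_mod_cast h5
    have h7 : m = 0 := by
      by_contra hm0
      have h8 : (M : ℤ) ≤ |m * M| := by
        rw [abs_mul, abs_of_nonneg (by positivity : (0 : ℤ) ≤ (M : ℤ))]
        have : 1 ≤ |m| := Int.one_le_abs hm0
        nlinarith
      rw [← h6] at h8
      have h9 : |(k : ℤ) - l| < M := by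
        rw [abs_lt]
        constructor <;> omega
      omega
    rw [h7] at h6
    simp at h6
    omega
  have h3 := mul_geom_sum ζ M
  rw [h1, sub_self] at h3
  rcases mul_eq_zero.mp h3 with h | h
  · exact absurd (sub_eq_zero.mp h) h2
  · exact h

theorem pars : S_PARS := by
  intro n M b φ hn
  have hM : (M : ℝ) ≠ 0 := by
    have : 0 < M := by omega
    positivity
  have hMc : (M : ℂ) ≠ 0 := by exact_mod_cast hM
  have key : ∀ j : ℕ, ((‖q n b (2 * Real.pi * j / M - φ)‖ ^ 2 : ℝ) : ℂ) =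
      ∑ k ∈ Finset.range (n + 1), ∑ l ∈ Finset.range (n + 1),
        (b k : ℂ) * (b l : ℂ) * Complex.exp ((-(((k : ℝ) - l) * φ) : ℝ) * Complex.I) *
          Complex.exp ((2 * Real.pi * ((k : ℝ) - l) / M : ℝ) * Complex.I) ^ j := by
    intro j
    have h1 : ((‖q n b (2 * Real.pi * j / M - φ)‖ ^ 2 : ℝ) : ℂ) =
        q n b (2 * Real.pi * j / M - φ) *
          (starRingEnd ℂ) (q n b (2 * Real.pi * j / M - φ)) := by
      rw [Complex.mul_conj, Complex.normSq_eq_norm_sq]
    rw [h1]
    unfold q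
    rw [map_sum, Finset.sum_mul_sum]
    refine Finset.sum_congr rfl fun k _ => Finset.sum_congr rfl fun l _ => ?_
    rw [map_mul, Complex.conj_ofReal, ← Complex.exp_conj, map_mul, Complex.conj_I,
      Complex.conj_ofReal, ← Complex.exp_nat_mul]
    rw [show ∀ a b c d : ℂ, a * b * (c * d) = a * c * (b * d) from fun a b c d => by ring]
    rw [← Complex.exp_add, mul_assoc ((b k : ℂ) * (b l : ℂ)), ← Complex.exp_add]
    congr 2
    push_cast
    field_simp
    ring
  have h2 : ((∑ j ∈ Finset.range M, ‖q n b (2 * Real.pi * j / M - φ)‖ ^ 2 : ℝ) : ℂ) =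
      ((M * ∑ k ∈ Finset.range (n + 1), b k ^ 2 : ℝ) : ℂ) := by
    rw [Complex.ofReal_sum, Finset.sum_congr rfl (fun j _ => key j), Finset.sum_comm]
    push_cast
    rw [Finset.mul_sum]
    refine Finset.sum_congr rfl fun k hk => ?_
    rw [Finset.sum_comm, Finset.sum_eq_single k]
    · rw [← Finset.mul_sum]
      simp
      ring
    · intro l hl hlk
      have hkM : k < M := by have := Finset.mem_range.mp hk; omega
      have hlM : l < M := by have := Finset.mem_range.mp hl; omega
      have pg := pars_geom M k l hkM hlM (Ne.symm hlk)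
      push_cast at pg
      rw [← Finset.mul_sum, pg, mul_zero]
    · intro h
      exact absurd hk h
  exact_mod_cast h2

end K4H45.PC
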