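import Pool.Agent.K4H45.PC.Spec

namespace K4H45.PC
open Set Polynomial

lemma chord_sub (ψ φ : ℝ) : (Real.cos ψ - Real.cos φ) ^ 2 ≤ 2 * (1 - Real.cos (ψ - φ)) := by
  rw [Real.cos_sub]
  have h1 := Real.sin_sq_add_cos_sq ψ
  have h2 := Real.sin_sq_add_cos_sq φ
  nlinarith [sq_nonneg (Real.sin ψ - Real.sin φ)]

lemma chord_add (ψ φ : ℝ) : (Real.cos ψ - Real.cos φ) ^ 2 ≤ 2 * (1 - Real.cos (ψ + φ)) := by
  have h := chord_sub ψ (-φ)
  rwa [Real.cos_neg, sub_neg_eq_add] at h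

theorem po : S_PARS → S_POLY → S_DIFF → S_SUMS → S_PO := by
  intro hP hQ hD hS n hn
  set b : ℕ → ℝ := fun k => ((k : ℝ) + 1) * ((n : ℝ) + 1 - k) with hb
  set b' : ℕ → ℝ := fun k => (n : ℝ) + 1 - 2 * k with hb'
  set M : ℕ := n + 2 with hM
  set S : ℝ := ∑ k ∈ Finset.range (n + 1), b k ^ 2 with hSdef
  set S' : ℝ := ∑ k ∈ Finset.range (n + 2), b' k ^ 2 with hS'def
  have hMpos : (0 : ℝ) < (M : ℝ) := by
    rw [hM]; positivity
  have hSpos : 0 < S := by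
    rw [hSdef]
    apply Finset.sum_pos
    · intro k hk
      rw [Finset.mem_range] at hk
      have hk' : (k : ℝ) ≤ n := by exact_mod_cast Nat.lt_succ_iff.mp hk
      have h1 : (0 : ℝ) ≤ k := Nat.cast_nonneg k
      have : 0 < b k := by
        rw [hb]
        apply mul_pos <;> linarith
      positivity
    · exact ⟨0, Finset.mem_range.mpr (Nat.succ_pos n)⟩
  have hsum := hS n
  have hsum' : 10 * S = (((n : ℝ) + 2) ^ 2 + 1) * S' := hsum
  let ψ : ℕ → ℝ := fun j => 2 * Real.pi * j / M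
  choose V hV1 hV2 using fun j : ℕ => hQ n b (ψ j)
  have hMS : 0 < (M : ℝ) * S := mul_pos hMpos hSpos
  -- evaluation of the weights
  have hev : ∀ (j : ℕ) (φ : ℝ), ((C (1 / ((M : ℝ) * S)) * V j).eval (Real.cos φ))
      = (‖q n b (ψ j - φ)‖ ^ 2 + ‖q n b (ψ j + φ)‖ ^ 2) / 2 / ((M : ℝ) * S) := by
    intro j φ
    rw [eval_mul, eval_C, hV2]
    field_simp
  have hcos : ∀ u ∈ Icc (-1 : ℝ) 1, Real.cos (Real.arccos u) = u := fun u hu =>
    Real.cos_arccos hu.1 hu.2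
  have hpars1 : ∀ φ : ℝ, ∑ j ∈ Finset.range M, ‖q n b (ψ j - φ)‖ ^ 2 = M * S := by
    intro φ
    exact hP n M b φ (by omega)
  have hpars2 : ∀ φ : ℝ, ∑ j ∈ Finset.range M, ‖q n b (ψ j + φ)‖ ^ 2 = M * S := by
    intro φ
    have := hpars1 (-φ)
    simpa only [sub_neg_eq_add] using this
  have hpars3 : ∀ φ : ℝ, ∑ j ∈ Finset.range M, ‖q (n + 1) b' (ψ j - φ)‖ ^ 2 = M * S' := by
    intro φ
    exact hP (n + 1) M b' φ (by omega)
  have hpars4 : ∀ φ : ℝ, ∑ j ∈ Finset.range M, ‖q (n + 1) b' (ψ j + φ)‖ ^ 2 = M * S' := by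
    intro φ
    have := hpars3 (-φ)
    simpa only [sub_neg_eq_add] using this
  refine ⟨M, fun j => Real.cos (ψ j), fun j => C (1 / ((M : ℝ) * S)) * V j, ?_, ?_, ?_, ?_, ?_⟩
  · intro j
    exact Real.cos_mem_Icc _
  · intro j
    exact (natDegree_C_mul_le _ _).trans (hV1 j)
  · intro j u hu
    rw [← hcos u hu, hev]
    positivity
  · intro u hu
    rw [← hcos u hu]
    simp only [hev]
    rw [Fin.sum_univ_eq_sum_range (fun j => (‖q n b (ψ j - Real.arccos u)‖ ^ 2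
      + ‖q n b (ψ j + Real.arccos u)‖ ^ 2) / 2 / ((M : ℝ) * S)) M]
    rw [← Finset.sum_div, ← Finset.sum_div, Finset.sum_add_distrib, hpars1, hpars2]
    field_simp
    norm_num
  · intro u hu
    rw [← hcos u hu]
    set φ := Real.arccos u with hφ
    simp only [hev]
    rw [Fin.sum_univ_eq_sum_range (fun j => (‖q n b (ψ j - φ)‖ ^ 2
      + ‖q n b (ψ j + φ)‖ ^ 2) / 2 / ((M : ℝ) * S) * (Real.cos (ψ j) - Real.cos φ) ^ 2) M]
    have hterm : ∀ j ∈ Finset.range M, (‖q n b (ψ j - φ)‖ ^ 2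
      + ‖q n b (ψ j + φ)‖ ^ 2) / 2 / ((M : ℝ) * S) * (Real.cos (ψ j) - Real.cos φ) ^ 2
      ≤ (‖q (n + 1) b' (ψ j - φ)‖ ^ 2 + ‖q (n + 1) b' (ψ j + φ)‖ ^ 2) / 2 / ((M : ℝ) * S) := by
      intro j _
      have e1 := hD n (ψ j - φ)
      have e2 := hD n (ψ j + φ)
      have c1 := chord_sub (ψ j) φ
      have c2 := chord_add (ψ j) φ
      have n1 : 0 ≤ ‖q n b (ψ j - φ)‖ ^ 2 := by positivity
      have n2 : 0 ≤ ‖q n b (ψ j + φ)‖ ^ 2 := by positivity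
      have f1 := mul_le_mul_of_nonneg_right c1 n1
      have f2 := mul_le_mul_of_nonneg_right c2 n2
      have g1 : 2 * (1 - Real.cos (ψ j - φ)) * ‖q n b (ψ j - φ)‖ ^ 2
        = ‖q (n + 1) b' (ψ j - φ)‖ ^ 2 := e1
      have g2 : 2 * (1 - Real.cos (ψ j + φ)) * ‖q n b (ψ j + φ)‖ ^ 2
        = ‖q (n + 1) b' (ψ j + φ)‖ ^ 2 := e2
      rw [g1] at f1
      rw [g2] at f2
      rw [div_mul_eq_mul_div, div_le_div_iff_of_pos_right hMS]
      nlinarith [f1, f2]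
    refine (Finset.sum_le_sum hterm).trans ?_
    rw [← Finset.sum_div, ← Finset.sum_div, Finset.sum_add_distrib, hpars3, hpars4]
    have hn0 : (0 : ℝ) < n := by exact_mod_cast hn
    have hS'nn : 0 ≤ S' := by
      rw [hS'def]; positivity
    rw [div_le_div_iff₀ hMS (by positivity)]
    have e3 : ((M : ℝ) * S' + M * S') / 2 * (n : ℝ) ^ 2 = M * (S' * (n : ℝ) ^ 2) := by ring
    have e4 : 10 * ((M : ℝ) * S) = M * (10 * S) := by ring
    rw [e3, e4, hsum']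
    apply mul_le_mul_of_nonneg_left _ hMpos.le
    nlinarith [hS'nn, hn0, mul_nonneg hS'nn hn0.le]

end K4H45.PC
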