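import Mathlib

/-!
MP_24cacf_an: e_n <= C / n^2.  Internal geometry in ℂ.
All pieces are elementary; `Base K`: K compact convex nonempty in the closed unit disc.
`xx u` runs over the circle of radius 2, `G u` is the nearest point of `K` to `xx u`.
-/
namespace K4H45.PC
open Set Polynomial

noncomputable section

/-- real scalar product on ℂ -/
def dot (z w : ℂ) : ℝ := z.re * w.re + z.im * w.im

/-- the circle of radius 2, one turn for u in an interval of length one -/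
def xx (u : ℝ) : ℂ := 2 * Complex.exp ((2 * Real.pi * u : ℝ) * Complex.I)

structure Base (K : Set ℂ) : Prop where
  cpt : IsCompact K
  cvx : Convex ℝ K
  ne : K.Nonempty
  ball : K ⊆ Metric.closedBall 0 1

/-- `G u` is the metric projection of `xx u` onto `K` -/
structure Par (K : Set ℂ) (G : ℝ → ℂ) : Prop where
  mem : ∀ u, G u ∈ K
  sup : ∀ u, ∀ y ∈ K, dot (y - G u) (xx u - G u) ≤ 0

/-- trigonometric polynomial -/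
def q (n : ℕ) (b : ℕ → ℝ) (θ : ℝ) : ℂ :=
  ∑ k ∈ Finset.range (n + 1), (b k : ℂ) * Complex.exp ((k * θ : ℝ) * Complex.I)

/-- PARS: discrete Parseval (geometric sums of roots of unity) -/
def S_PARS : Prop := ∀ (n M : ℕ) (b : ℕ → ℝ) (φ : ℝ), n < M →
  ∑ j ∈ Finset.range M, ‖q n b (2 * Real.pi * j / M - φ)‖ ^ 2
    = M * ∑ k ∈ Finset.range (n + 1), b k ^ 2

/-- POLY: the symmetrised |q|^2 is a polynomial of degree ≤ n in cos φ (Chebyshev) -/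
def S_POLY : Prop := ∀ (n : ℕ) (b : ℕ → ℝ) (ψ : ℝ), ∃ W : ℝ[X], W.natDegree ≤ n ∧
  ∀ φ : ℝ, W.eval (Real.cos φ) = (‖q n b (ψ - φ)‖ ^ 2 + ‖q n b (ψ + φ)‖ ^ 2) / 2

/-- DIFF: multiply by 1 - e^{iθ} -/
def S_DIFF : Prop := ∀ (n : ℕ) (θ : ℝ),
  2 * (1 - Real.cos θ) * ‖q n (fun k => ((k : ℝ) + 1) * ((n : ℝ) + 1 - k)) θ‖ ^ 2
    = ‖q (n + 1) (fun k => (n : ℝ) + 1 - 2 * k) θ‖ ^ 2

/-- SUMS -/
def S_SUMS : Prop := ∀ n : ℕ,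
  10 * ∑ k ∈ Finset.range (n + 1), (((k : ℝ) + 1) * ((n : ℝ) + 1 - k)) ^ 2
    = (((n : ℝ) + 2) ^ 2 + 1) * ∑ k ∈ Finset.range (n + 2), ((n : ℝ) + 1 - 2 * k) ^ 2

/-- PO: positive polynomial weights. `theorem po : S_PARS → S_POLY → S_DIFF → S_SUMS → S_PO` -/
def S_PO : Prop := ∀ n : ℕ, 1 ≤ n → ∃ (M : ℕ) (t : Fin M → ℝ) (W : Fin M → ℝ[X]),
  (∀ j, t j ∈ Icc (-1 : ℝ) 1) ∧ (∀ j, (W j).natDegree ≤ n) ∧
  (∀ j, ∀ u ∈ Icc (-1 : ℝ) 1, 0 ≤ (W j).eval u) ∧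
  (∀ u ∈ Icc (-1 : ℝ) 1, ∑ j, (W j).eval u = 1) ∧
  (∀ u ∈ Icc (-1 : ℝ) 1, ∑ j, (W j).eval u * (t j - u) ^ 2 ≤ 10 / (n : ℝ) ^ 2)

/-- EX: existence of the metric projection -/
def S_EX : Prop := ∀ K : Set ℂ, Base K → ∃ G : ℝ → ℂ, Par K G

/-- LIP: the projection is 1-Lipschitz, |xx u - xx t| ≤ 4π|u-t| ≤ 13|u-t| -/
def S_LIP : Prop := ∀ (K : Set ℂ) (G : ℝ → ℂ), Base K → Par K G → ∀ u t : ℝ,
  ‖G u - G t‖ ≤ 13 * |u - t| ∧ ‖(xx u - G u) - (xx t - G t)‖ ≤ 26 * |u - t| ∧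
  1 ≤ ‖xx u - G u‖ ∧ ‖xx u - G u‖ ≤ 3

/-- KEY: `theorem key : S_LIP → S_KEY` -/
def S_KEY : Prop := ∀ (K : Set ℂ) (G : ℝ → ℂ), Base K → Par K G → ∀ u t : ℝ,
  0 ≤ dot (G u - G t) (xx u - G u) ∧ dot (G u - G t) (xx u - G u) ≤ 338 * (u - t) ^ 2

/-- SUR: every frontier point is a projection -/
def S_SUR : Prop := ∀ (K : Set ℂ) (G : ℝ → ℂ), Base K → Par K G → ∀ p ∈ frontier K,
  ∃ a ∈ Icc (-1/2 : ℝ) (1/2), G a = p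

/-- SIGN: `theorem sign : S_LIP → S_SIGN` -/
def S_SIGN : Prop := ∀ (K : Set ℂ) (G : ℝ → ℂ), Base K → Par K G → ∀ a u : ℝ, |u - a| ≤ 1/52 →
  (a ≤ u → 0 ≤ dot (G u - G a) (Complex.I * (xx a - G a))) ∧
  (u ≤ a → dot (G u - G a) (Complex.I * (xx a - G a)) ≤ 0)

/-- NEAR: `theorem near : S_LIP → S_NEAR` -/
def S_NEAR : Prop := ∀ (K : Set ℂ) (G : ℝ → ℂ), Base K → Par K G → ∀ (u : ℝ) (P : ℂ) (δ : ℝ),
  P ∈ K → 0 < δ → dot (G u - P) (xx u - G u) < δ → ∃ z ∈ frontier K, ‖z - P‖ ≤ δ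

/-- weights: continuous, nonnegative, sum one, second moment at most ε, on [-1,1] -/
structure Wts (M : ℕ) (t : Fin M → ℝ) (W : Fin M → ℝ → ℝ) (ε : ℝ) : Prop where
  cont : ∀ j, Continuous (W j)
  nn : ∀ j, ∀ u ∈ Icc (-1 : ℝ) 1, 0 ≤ W j u
  one : ∀ u ∈ Icc (-1 : ℝ) 1, ∑ j, W j u = 1
  mom : ∀ u ∈ Icc (-1 : ℝ) 1, ∑ j, W j u * (t j - u) ^ 2 ≤ ε

/-- the approximating curve -/
def PP {M : ℕ} (t : Fin M → ℝ) (W : Fin M → ℝ → ℝ) (G : ℝ → ℂ) (u : ℝ) : ℂ :=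
  ∑ j, (W j u : ℂ) * G (t j)

/-- MEMK: `theorem memk : S_KEY → S_MEMK` -/
def S_MEMK : Prop := ∀ (K : Set ℂ) (G : ℝ → ℂ), Base K → Par K G →
  ∀ (M : ℕ) (t : Fin M → ℝ) (W : Fin M → ℝ → ℝ) (ε : ℝ), Wts M t W ε → ∀ u ∈ Icc (-1 : ℝ) 1,
  PP t W G u ∈ K ∧ dot (G u - PP t W G u) (xx u - G u) ≤ 338 * ε

/-- ENDS: `theorem ends : S_SIGN → S_LIP → S_ENDS` -/
def S_ENDS : Prop := ∀ (K : Set ℂ) (G : ℝ → ℂ), Base K → Par K G →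
  ∀ (M : ℕ) (t : Fin M → ℝ) (W : Fin M → ℝ → ℝ) (ε : ℝ), Wts M t W ε →
  ∀ a ∈ Icc (-1/2 : ℝ) (1/2),
  -(64896 * ε) ≤ dot (PP t W G (a + 1/104) - G a) (Complex.I * (xx a - G a)) ∧
  dot (PP t W G (a - 1/104) - G a) (Complex.I * (xx a - G a)) ≤ 64896 * ε

/-- GEO: `theorem geo : S_LIP → S_GEO` -/
def S_GEO : Prop := ∀ (K : Set ℂ) (G : ℝ → ℂ), Base K → Par K G → ∀ (a u : ℝ) (P : ℂ) (ε : ℝ),
  0 ≤ ε → |u - a| ≤ 1/104 → P ∈ K → dot (G u - P) (xx u - G u) ≤ 338 * ε →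
  |dot (P - G a) (Complex.I * (xx a - G a))| ≤ 64896 * ε → ‖G a - P‖ ≤ 87000 * ε

/-- COV: `theorem cov : S_MEMK → S_ENDS → S_GEO → S_COV` (intermediate value theorem) -/
def S_COV : Prop := ∀ (K : Set ℂ) (G : ℝ → ℂ), Base K → Par K G →
  ∀ (M : ℕ) (t : Fin M → ℝ) (W : Fin M → ℝ → ℝ) (ε : ℝ), Wts M t W ε →
  ∀ a ∈ Icc (-1/2 : ℝ) (1/2), ∃ u ∈ Icc (-1 : ℝ) 1, ‖G a - PP t W G u‖ ≤ 87000 * ε

/-- CPX: `theorem cpx : S_PO → S_EX → S_SUR → S_NEAR → S_MEMK → S_COV → S_CPX` -/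
def S_CPX : Prop := ∀ n : ℕ, 1 ≤ n → ∀ K : Set ℂ, Base K → ∃ P Q : ℝ[X],
  P.natDegree ≤ n ∧ Q.natDegree ≤ n ∧
  (∀ u ∈ Icc (-1 : ℝ) 1, ∃ z ∈ frontier K, ‖z - ⟨P.eval u, Q.eval u⟩‖ ≤ 1000000 / (n : ℝ) ^ 2) ∧
  (∀ z ∈ frontier K, ∃ u ∈ Icc (-1 : ℝ) 1, ‖z - ⟨P.eval u, Q.eval u⟩‖ ≤ 1000000 / (n : ℝ) ^ 2)

/-- BALL -/
def S_BALL : Prop := ∀ (K : Set ℂ) (b : ℂ), IsCompact K → Convex ℝ K →
  frontier K ⊆ Metric.closedBall b 1 → K ⊆ Metric.closedBall b 1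

/-! Final statement -/

/-- `F` is a closed convex curve of length one in the plane: the boundary of a compact convex set
with nonempty interior, which is a simple closed curve of Euclidean length (total variation) one. -/
def IsCurve (F : Set (ℝ × ℝ)) : Prop :=
  (∃ K : Set (ℝ × ℝ), IsCompact K ∧ Convex ℝ K ∧ (interior K).Nonempty ∧ F = frontier K) ∧
  ∃ c : ℝ → ℂ, ContinuousOn c (Icc 0 1) ∧ InjOn c (Ico 0 1) ∧ c 0 = c 1 ∧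
    F = (fun s => ((c s).re, (c s).im)) '' Icc 0 1 ∧ eVariationOn c (Icc 0 1) = 1

/-- polynomial curve, as a point set -/
def curve (P Q : ℝ[X]) : Set (ℝ × ℝ) := (fun s => (P.eval s, Q.eval s)) '' Icc (0 : ℝ) 1

/-- FIN: `theorem fin : S_CPX → S_BALL → S_FIN`; distance of ℝ × ℝ is the max distance -/
def S_FIN : Prop := ∀ n : ℕ, 1 ≤ n → ∀ F : Set (ℝ × ℝ), IsCurve F → ∃ P Q : ℝ[X],
  P.natDegree ≤ n ∧ Q.natDegree ≤ n ∧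
  Metric.hausdorffDist F (curve P Q) ≤ 1000000 / (n : ℝ) ^ 2

end
end K4H45.PC
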