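import Mathlib
import Pool.Agent.K4H45.PC.Spec

/-!
Piece POLY of MP_24cacf_an.
-/
namespace K4H45.PC
open Set Polynomial

noncomputable section

theorem normSq_q (n : ℕ) (b : ℕ → ℝ) (θ : ℝ) :
    ‖q n b θ‖ ^ 2 = ∑ k ∈ Finset.range (n + 1), ∑ l ∈ Finset.range (n + 1),
      b k * b l * Real.cos ((((k : ℤ) - (l : ℤ) : ℤ) : ℝ) * θ) := by
  have hre : (q n b θ).re = ∑ k ∈ Finset.range (n + 1), b k * Real.cos (k * θ) := by
    unfold q
    rw [Complex.re_sum]
    refine Finset.sum_congr rfl fun k _ => ?_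
    rw [Complex.re_ofReal_mul, Complex.exp_ofReal_mul_I_re]
  have him : (q n b θ).im = ∑ k ∈ Finset.range (n + 1), b k * Real.sin (k * θ) := by
    unfold q
    rw [Complex.im_sum]
    refine Finset.sum_congr rfl fun k _ => ?_
    rw [Complex.im_ofReal_mul, Complex.exp_ofReal_mul_I_im]
  rw [← Complex.normSq_eq_norm_sq, Complex.normSq_apply, hre, him, Finset.sum_mul_sum,
    Finset.sum_mul_sum, ← Finset.sum_add_distrib]
  refine Finset.sum_congr rfl fun k _ => ?_
  rw [← Finset.sum_add_distrib]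
  refine Finset.sum_congr rfl fun l _ => ?_
  have e : (((k : ℤ) - (l : ℤ) : ℤ) : ℝ) * θ = k * θ - l * θ := by push_cast; ring
  rw [e, Real.cos_sub]
  ring

/-- POLY -/
theorem poly : S_POLY := by
  intro n b ψ
  refine ⟨∑ k ∈ Finset.range (n + 1), ∑ l ∈ Finset.range (n + 1),
    C (b k * b l * Real.cos ((((k : ℤ) - (l : ℤ) : ℤ) : ℝ) * ψ)) *
      Chebyshev.T ℝ ((k : ℤ) - (l : ℤ)), ?_, ?_⟩
  · apply natDegree_sum_le_of_forall_le
    intro k hk
    apply natDegree_sum_le_of_forall_le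
    intro l hl
    rw [Finset.mem_range] at hk hl
    refine (natDegree_C_mul_le _ _).trans ?_
    rw [Chebyshev.natDegree_T]
    omega
  · intro φ
    rw [normSq_q, normSq_q, ← Finset.sum_add_distrib, Finset.sum_div, eval_finsetSum]
    refine Finset.sum_congr rfl fun k _ => ?_
    rw [← Finset.sum_add_distrib, Finset.sum_div, eval_finsetSum]
    refine Finset.sum_congr rfl fun l _ => ?_
    rw [eval_mul, eval_C, Chebyshev.T_real_cos]
    set m : ℝ := (((k : ℤ) - (l : ℤ) : ℤ) : ℝ)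
    have e1 : m * (ψ - φ) = m * ψ - m * φ := by ring
    have e2 : m * (ψ + φ) = m * ψ + m * φ := by ring
    rw [e1, e2, Real.cos_sub, Real.cos_add]
    ring

end
end K4H45.PC
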