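import Pool.Agent.K4H45.PC.Low

namespace K4H45.PC
open Set

noncomputable section

/-- the unit circle -/
def prmE (s : ℝ) : ℂ := Complex.exp ((2 * Real.pi * s : ℝ) * Complex.I)

lemma prmE_norm (s : ℝ) : ‖prmE s‖ = 1 := Complex.norm_exp_ofReal_mul_I _

lemma prmE_ne (s : ℝ) : prmE s ≠ 0 := Complex.exp_ne_zero _

lemma prmE_lip (s t : ℝ) : ‖prmE s - prmE t‖ ≤ 6.3 * |s - t| := by
  have h1 : prmE s - prmE t = prmE t * (Complex.exp (Complex.I * ((2 * Real.pi * (s - t) : ℝ) : ℂ)) - 1) := by
    unfold prmE
    rw [mul_sub, mul_one, ← Complex.exp_add]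
    congr 2
    push_cast
    ring
  rw [h1, norm_mul, prmE_norm, one_mul]
  refine Real.norm_exp_I_mul_ofReal_sub_one_le.trans ?_
  rw [Real.norm_eq_abs, abs_mul, abs_of_pos (by positivity)]
  have := Real.pi_lt_d2
  have h0 := abs_nonneg (s - t)
  nlinarith

lemma prmE_inj {s t : ℝ} (hs : s ∈ Ico (0 : ℝ) 1) (ht : t ∈ Ico (0 : ℝ) 1)
    (h : prmE s = prmE t) : s = t := by
  unfold prmE at h
  rw [Complex.exp_eq_exp_iff_exists_int] at h
  obtain ⟨n, hn⟩ := h
  have h1 : ((2 * Real.pi * s : ℝ) : ℂ) * Complex.I =
      ((2 * Real.pi * t + n * (2 * Real.pi) : ℝ) : ℂ) * Complex.I := by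
    rw [hn]
    push_cast
    ring
  have h2 := mul_right_cancel₀ Complex.I_ne_zero h1
  have h3 : 2 * Real.pi * s = 2 * Real.pi * t + n * (2 * Real.pi) := by exact_mod_cast h2
  have h4 : s = t + n := by
    have hp := Real.pi_pos
    have : 2 * Real.pi * (s - (t + n)) = 0 := by linarith
    rcases mul_eq_zero.1 this with h | h
    · linarith
    · linarith
  have h5 : (n : ℝ) < 1 := by linarith [hs.2, ht.1]
  have h6 : (-1 : ℝ) < n := by linarith [hs.1, ht.2]
  have h7 : n < 1 := by exact_mod_cast h5
  have h8 : -1 < n := by exact_mod_cast h6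
  have h9 : n = 0 := by omega
  rw [h4, h9]
  simp

theorem prm : S_GGB → S_GGL → S_PRM := by
  intro hB hL m hm
  obtain ⟨hlip, hhom, -, hle, -⟩ := hB m hm
  have hge := hL m hm
  set r : ℝ → ℝ := fun s => gg m (prmE s) with hr
  have hr1 : ∀ s, r s ≤ 1 := fun s => (hle _).trans (prmE_norm s).le
  have hr2 : ∀ s, 1 / 2 ≤ r s := fun s => by
    have := hge (prmE s)
    rw [prmE_norm] at this
    exact this
  have hrp : ∀ s, 0 < r s := fun s => by linarith [hr2 s]
  set c : ℝ → ℂ := fun s => ((1 / r s : ℝ) : ℂ) * prmE s with hc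
  have hcn : ∀ s, ‖c s‖ = 1 / r s := fun s => by
    rw [hc]
    simp only
    rw [norm_mul, prmE_norm, mul_one, Complex.norm_real, Real.norm_of_nonneg (by have := hrp s; positivity)]
  have hcl : ∀ s t, ‖c s - c t‖ ≤ 38 * |s - t| := by
    intro s t
    have h1 : c s - c t = ((1 / r s : ℝ) : ℂ) * (prmE s - prmE t) +
        ((1 / r s - 1 / r t : ℝ) : ℂ) * prmE t := by
      rw [hc]
      push_cast
      ring
    rw [h1]
    refine (norm_add_le _ _).trans ?_
    rw [norm_mul, norm_mul, prmE_norm, mul_one, Complex.norm_real, Complex.norm_real,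
      Real.norm_of_nonneg (by have := hrp s; positivity), Real.norm_eq_abs]
    have h2 := prmE_lip s t
    have h3 : |r t - r s| ≤ ‖prmE s - prmE t‖ := by
      rw [abs_sub_comm]
      exact hlip _ _
    have h4 : 1 / r s ≤ 2 := by
      rw [div_le_iff₀ (hrp s)]
      linarith [hr2 s]
    have h4' : 1 / r t ≤ 2 := by
      rw [div_le_iff₀ (hrp t)]
      linarith [hr2 t]
    have h5 : 1 / r s - 1 / r t = (r t - r s) * ((1 / r s) * (1 / r t)) := by
      have := (hrp s).ne'
      have := (hrp t).ne'
      field_simp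
    have h6 : |1 / r s - 1 / r t| ≤ 4 * ‖prmE s - prmE t‖ := by
      rw [h5, abs_mul]
      have h7 : |1 / r s * (1 / r t)| ≤ 4 := by
        have hs := hrp s
        have ht := hrp t
        rw [abs_of_pos (by positivity)]
        have := mul_le_mul h4 h4' (by positivity) (by norm_num)
        linarith
      calc |r t - r s| * |1 / r s * (1 / r t)| ≤ ‖prmE s - prmE t‖ * 4 :=
            mul_le_mul h3 h7 (abs_nonneg _) (norm_nonneg _)
        _ = 4 * ‖prmE s - prmE t‖ := by ring
    have h8 : 1 / r s * ‖prmE s - prmE t‖ ≤ 2 * ‖prmE s - prmE t‖ :=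
      mul_le_mul_of_nonneg_right h4 (norm_nonneg _)
    have h9 := abs_nonneg (s - t)
    linarith
  have hlw : LipschitzWith 38 c := by
    refine LipschitzWith.of_dist_le_mul (fun s t => ?_)
    rw [dist_eq_norm, Real.dist_eq]
    exact_mod_cast hcl s t
  have hinj : InjOn c (Ico 0 1) := by
    intro s hs t ht h
    refine prmE_inj hs ht ?_
    have h1 : 1 / r s = 1 / r t := by rw [← hcn, ← hcn, h]
    have h2 : c s = c t := h
    rw [hc] at h2
    simp only at h2
    rw [h1] at h2
    refine mul_left_cancel₀ ?_ h2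
    have := hrp t
    exact_mod_cast (by positivity : (1 / r t : ℝ) ≠ 0)
  refine ⟨c, hlw.continuous.continuousOn, hinj, ?_, ?_, ?_, ?_⟩
  · have h1 : prmE 0 = prmE 1 := by
      unfold prmE
      have : ((2 * Real.pi * 1 : ℝ) : ℂ) * Complex.I = 2 * Real.pi * Complex.I := by
        push_cast
        ring
      rw [this, Complex.exp_two_pi_mul_I]
      simp
    rw [hc]
    simp only [hr]
    rw [h1]
  · ext z
    constructor
    · intro hz
      have hz1 : gg m z = 1 := hz
      have hz0 : z ≠ 0 := by
        rintro rfl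
        have := hhom 0 0 le_rfl
        rw [zero_mul] at this
        simp only [Complex.ofReal_zero, zero_mul] at this
        linarith
      have hzn : 0 < ‖z‖ := norm_pos_iff.2 hz0
      have key : ∀ s, z = (‖z‖ : ℂ) * prmE s → z = c s := by
        intro s h
        have h1 : gg m z = ‖z‖ * r s := by
          conv_lhs => rw [h]
          exact hhom _ _ hzn.le
        have h2 : ‖z‖ = 1 / r s := by
          rw [eq_div_iff (hrp s).ne', ← h1, hz1]
        rw [hc]
        simp only
        rw [← h2]
        exact h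
      have hpi := Real.pi_pos
      by_cases hneg : Complex.arg z < 0
      · refine ⟨Complex.arg z / (2 * Real.pi) + 1, ⟨?_, ?_⟩, (key _ ?_).symm⟩
        · have := Complex.neg_pi_lt_arg z
          have h1 : -1 ≤ Complex.arg z / (2 * Real.pi) := by
            rw [le_div_iff₀ (by positivity)]
            linarith
          linarith
        · have h1 : Complex.arg z / (2 * Real.pi) ≤ 0 :=
            div_nonpos_of_nonpos_of_nonneg hneg.le (by positivity)
          linarith
        · unfold prmE
          have h1 : ((2 * Real.pi * (Complex.arg z / (2 * Real.pi) + 1) : ℝ) : ℂ) * Complex.I =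
              (Complex.arg z : ℂ) * Complex.I + 2 * Real.pi * Complex.I := by
            have : 2 * Real.pi * (Complex.arg z / (2 * Real.pi) + 1) =
              Complex.arg z + 2 * Real.pi := by
              field_simp
            rw [this]
            push_cast
            ring
          rw [h1, Complex.exp_add, Complex.exp_two_pi_mul_I, mul_one]
          exact (Complex.norm_mul_exp_arg_mul_I z).symm
      · push Not at hneg
        refine ⟨Complex.arg z / (2 * Real.pi), ⟨by positivity, ?_⟩, (key _ ?_).symm⟩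
        · have := Complex.arg_le_pi z
          rw [div_le_iff₀ (by positivity)]
          linarith
        · unfold prmE
          have h1 : ((2 * Real.pi * (Complex.arg z / (2 * Real.pi)) : ℝ) : ℂ) * Complex.I =
              (Complex.arg z : ℂ) * Complex.I := by
            have : 2 * Real.pi * (Complex.arg z / (2 * Real.pi)) = Complex.arg z := by
              field_simp
            rw [this]
          rw [h1]
          exact (Complex.norm_mul_exp_arg_mul_I z).symm
    · rintro ⟨s, -, rfl⟩
      show gg m (c s) = 1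
      rw [hc]
      simp only
      rw [hhom _ _ (by have := hrp s; positivity)]
      exact one_div_mul_cancel (hrp s).ne'
  · have h1 := (hlw.lipschitzOnWith (s := (univ : Set ℝ))).comp_eVariationOn_le
      (g := (id : ℝ → ℝ)) (s := Icc 0 1) (fun _ _ => mem_univ _)
    have h2 : eVariationOn (id : ℝ → ℝ) (Icc 0 1) ≤ ENNReal.ofReal (1 - 0) := by
      have := (monotone_id.monotoneOn (Icc (0 : ℝ) 1)).eVariationOn_le
        (a := 0) (b := 1) (left_mem_Icc.2 zero_le_one) (right_mem_Icc.2 zero_le_one)
      rw [inter_self] at this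
      exact this
    rw [Function.comp_id] at h1
    refine h1.trans ?_
    calc ((38 : NNReal) : ENNReal) * eVariationOn (id : ℝ → ℝ) (Icc 0 1)
        ≤ ((38 : NNReal) : ENNReal) * ENNReal.ofReal (1 - 0) := by gcongr
      _ ≤ 40 := by
          norm_num
  · intro h0
    have h1 := eVariationOn.edist_le c (s := Icc (0 : ℝ) 1) (x := 0) (y := 1 / 2)
      (left_mem_Icc.2 zero_le_one) ⟨by norm_num, by norm_num⟩
    rw [h0] at h1
    have h2 : c 0 = c (1 / 2) := edist_le_zero.1 h1
    have h3 := hinj (left_mem_Ico.2 zero_lt_one) ⟨by norm_num, by norm_num⟩ h2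
    norm_num at h3

end
end K4H45.PC
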