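import Pool.Agent.K4H45.PC.Spec

namespace K4H45.PC

lemma sign_xx_re (u : ℝ) : (xx u).re = 2 * Real.cos (2 * Real.pi * u) := by
  unfold xx
  have h : (2 : ℂ) = ((2 : ℝ) : ℂ) := by norm_num
  rw [h, Complex.re_ofReal_mul, Complex.exp_ofReal_mul_I_re]

lemma sign_xx_im (u : ℝ) : (xx u).im = 2 * Real.sin (2 * Real.pi * u) := by
  unfold xx
  have h : (2 : ℂ) = ((2 : ℝ) : ℂ) := by norm_num
  rw [h, Complex.im_ofReal_mul, Complex.exp_ofReal_mul_I_im]

lemma sign_norm_sq (z : ℂ) : ‖z‖ ^ 2 = z.re ^ 2 + z.im ^ 2 := by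
  rw [Complex.sq_norm, Complex.normSq_apply]
  ring

lemma sign_key (v1 v2 V1 V2 D1 D2 : ℝ) (hv : 1 ≤ v1 ^ 2 + v2 ^ 2)
    (hVv : (V1 - v1) ^ 2 + (V2 - v2) ^ 2 ≤ 1 / 4) (h1 : D1 * v1 + D2 * v2 ≤ 0)
    (h2 : 0 ≤ D1 * V1 + D2 * V2) :
    0 ≤ (V2 * v1 - V1 * v2) * (D2 * v1 - D1 * v2) := by
  have hr : 0 ≤ V1 * v1 + V2 * v2 := by nlinarith [sq_nonneg V1, sq_nonneg V2]
  have e : (V2 * v1 - V1 * v2) * (D2 * v1 - D1 * v2) =
      (v1 ^ 2 + v2 ^ 2) * (D1 * V1 + D2 * V2) - (V1 * v1 + V2 * v2) * (D1 * v1 + D2 * v2) := by ring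
  rw [e]
  have h3 : 0 ≤ (v1 ^ 2 + v2 ^ 2) * (D1 * V1 + D2 * V2) := mul_nonneg (by linarith) h2
  have h4 : (V1 * v1 + V2 * v2) * (D1 * v1 + D2 * v2) ≤ 0 := mul_nonpos_of_nonneg_of_nonpos hr h1
  linarith

/-- `1 - cos t ≤ sin t` for `0 ≤ t ≤ π / 2` -/
lemma sign_trig {t : ℝ} (h0 : 0 ≤ t) (h1 : t ≤ Real.pi / 2) : 1 - Real.cos t ≤ Real.sin t := by
  have hs : 0 ≤ Real.sin t := Real.sin_nonneg_of_nonneg_of_le_pi h0 (by linarith [Real.pi_pos])
  have hc : 0 ≤ Real.cos t := Real.cos_nonneg_of_neg_pi_div_two_le_of_le (by linarith [Real.pi_pos]) h1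
  have h := Real.sin_sq_add_cos_sq t
  nlinarith [mul_nonneg hs hc]

theorem sign : S_LIP → S_SIGN := by
  intro hL K G hB hP a u hau
  obtain ⟨-, h2, -, -⟩ := hL K G hB hP u a
  obtain ⟨-, -, h5, -⟩ := hL K G hB hP a u
  have hu := hP.sup u (G a) (hP.mem a)
  have ha := hP.sup a (G u) (hP.mem u)
  have hball := hB.ball (hP.mem a)
  rw [mem_closedBall_zero_iff] at hball
  have hpi := Real.pi_pos
  have hpi4 := Real.pi_le_four
  -- real coordinates
  set A1 := (xx a).re with hA1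
  set A2 := (xx a).im with hA2
  set B1 := (xx u).re with hB1
  set B2 := (xx u).im with hB2
  set g1 := (G a).re with hg1
  set g2 := (G a).im with hg2
  set k1 := (G u).re with hk1
  set k2 := (G u).im with hk2
  have hg : g1 ^ 2 + g2 ^ 2 ≤ 1 := by
    rw [hg1, hg2, ← sign_norm_sq]
    nlinarith [norm_nonneg (G a)]
  have hA : A1 ^ 2 + A2 ^ 2 = 4 := by
    rw [hA1, hA2, sign_xx_re, sign_xx_im]
    nlinarith [Real.sin_sq_add_cos_sq (2 * Real.pi * a)]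
  have hv : 1 ≤ (A1 - g1) ^ 2 + (A2 - g2) ^ 2 := by
    have h : ‖xx a - G a‖ ^ 2 = (A1 - g1) ^ 2 + (A2 - g2) ^ 2 := by
      rw [sign_norm_sq, Complex.sub_re, Complex.sub_im]
    rw [← h]
    nlinarith
  have hV : ((B1 - k1) - (A1 - g1)) ^ 2 + ((B2 - k2) - (A2 - g2)) ^ 2 ≤ 1 / 4 := by
    have h : ‖(xx u - G u) - (xx a - G a)‖ ^ 2 =
        ((B1 - k1) - (A1 - g1)) ^ 2 + ((B2 - k2) - (A2 - g2)) ^ 2 := by
      rw [sign_norm_sq]
      simp only [Complex.sub_re, Complex.sub_im]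
      rfl
    rw [← h]
    have h6 : ‖(xx u - G u) - (xx a - G a)‖ ≤ 1 / 2 := by linarith
    nlinarith [norm_nonneg ((xx u - G u) - (xx a - G a))]
  have h7 : (k1 - g1) * (A1 - g1) + (k2 - g2) * (A2 - g2) ≤ 0 := by
    have := ha
    unfold dot at this
    simpa only [Complex.sub_re, Complex.sub_im] using this
  have h8 : 0 ≤ (k1 - g1) * (B1 - k1) + (k2 - g2) * (B2 - k2) := by
    have := hu
    unfold dot at this
    simp only [Complex.sub_re, Complex.sub_im] at this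
    linarith
  have hkey := sign_key _ _ _ _ _ _ hv hV h7 h8
  -- the target
  have hT : dot (G u - G a) (Complex.I * (xx a - G a)) =
      (k2 - g2) * (A1 - g1) - (k1 - g1) * (A2 - g2) := by
    unfold dot
    simp only [Complex.sub_re, Complex.sub_im, Complex.mul_re, Complex.mul_im, Complex.I_re,
      Complex.I_im]
    ring
  rw [hT]
  -- rotation
  set c := Real.cos (2 * Real.pi * (u - a)) with hc
  set s := Real.sin (2 * Real.pi * (u - a)) with hs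
  have e1 : B1 = A1 * c - A2 * s := by
    rw [hB1, hA1, hA2, hc, hs, sign_xx_re, sign_xx_re, sign_xx_im]
    have : 2 * Real.pi * u = 2 * Real.pi * a + 2 * Real.pi * (u - a) := by ring
    rw [this, Real.cos_add]
    ring
  have e2 : B2 = A1 * s + A2 * c := by
    rw [hB2, hA1, hA2, hc, hs, sign_xx_im, sign_xx_re, sign_xx_im]
    have : 2 * Real.pi * u = 2 * Real.pi * a + 2 * Real.pi * (u - a) := by ring
    rw [this, Real.sin_add]
    ring
  have hip : (A1 * g1 + A2 * g2) ^ 2 + (A1 * g2 - A2 * g1) ^ 2 ≤ 4 := by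
    have : (A1 * g1 + A2 * g2) ^ 2 + (A1 * g2 - A2 * g1) ^ 2 =
      (A1 ^ 2 + A2 ^ 2) * (g1 ^ 2 + g2 ^ 2) := by ring
    rw [this, hA]
    linarith
  have hx : A1 * g1 + A2 * g2 ≤ 2 := by nlinarith [sq_nonneg (A1 * g2 - A2 * g1)]
  have hy1 : A1 * g2 - A2 * g1 ≤ 2 := by nlinarith [sq_nonneg (A1 * g1 + A2 * g2)]
  have hy2 : -2 ≤ A1 * g2 - A2 * g1 := by nlinarith [sq_nonneg (A1 * g1 + A2 * g2)]
  have hc1 : c ≤ 1 := Real.cos_le_one _
  have e3 : (k2 - g2) * (A1 - g1) - (k1 - g1) * (A2 - g2) =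
      s * (4 - (A1 * g1 + A2 * g2)) - (1 - c) * (A1 * g2 - A2 * g1) -
      ((B2 - k2) * (A1 - g1) - (B1 - k1) * (A2 - g2)) := by
    rw [e1, e2, ← hA]
    ring
  obtain ⟨ha1, ha2⟩ := abs_le.1 hau
  constructor
  · intro hle
    rcases lt_or_ge 0 ((B2 - k2) * (A1 - g1) - (B1 - k1) * (A2 - g2)) with hpos | hneg
    · exact nonneg_of_mul_nonneg_right hkey hpos
    · have ht := sign_trig (t := 2 * Real.pi * (u - a)) (by nlinarith) (by nlinarith)
      rw [← hc, ← hs] at ht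
      have hs0 : 0 ≤ s := by linarith
      rw [e3]
      nlinarith [mul_nonneg hs0 (by linarith : 0 ≤ 2 - (A1 * g1 + A2 * g2)),
        mul_nonneg (by linarith : 0 ≤ 1 - c) (by linarith : 0 ≤ 2 - (A1 * g2 - A2 * g1))]
  · intro hle
    rcases lt_or_ge ((B2 - k2) * (A1 - g1) - (B1 - k1) * (A2 - g2)) 0 with hneg | hpos
    · by_contra hcon
      push Not at hcon
      have := mul_neg_of_neg_of_pos hneg hcon
      linarith
    · have ht := sign_trig (t := 2 * Real.pi * (a - u)) (by nlinarith) (by nlinarith)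
      have e4 : 2 * Real.pi * (a - u) = -(2 * Real.pi * (u - a)) := by ring
      rw [e4, Real.cos_neg, Real.sin_neg, ← hc, ← hs] at ht
      have hs0 : 0 ≤ -s := by linarith
      rw [e3]
      nlinarith [mul_nonneg hs0 (by linarith : 0 ≤ 2 - (A1 * g1 + A2 * g2)),
        mul_nonneg (by linarith : 0 ≤ 1 - c) (by linarith : 0 ≤ 2 + (A1 * g2 - A2 * g1))]

end K4H45.PC
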