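import Mathlib
import Pool.Agent.K4H45.PC.Spec

namespace K4H45.PC
open Set Polynomial

noncomputable section

theorem sum_a (m : ℝ) (K : ℕ) : ∑ k ∈ Finset.range K, (((k : ℝ) + 1) * (m - k)) ^ 2 =
    m ^ 2 * ((K : ℝ) * (K + 1) * (2 * K + 1) / 6)
      - 2 * m * (((K : ℝ) * (K + 1) / 2) ^ 2 - (K : ℝ) * (K + 1) * (2 * K + 1) / 6)
      + ((K : ℝ) * (K + 1) * (2 * K + 1) * (3 * K ^ 2 + 3 * K - 1) / 30
        - 2 * ((K : ℝ) * (K + 1) / 2) ^ 2 + (K : ℝ) * (K + 1) * (2 * K + 1) / 6) := by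
  induction K with
  | zero => simp
  | succ K ih =>
    rw [Finset.sum_range_succ, ih]
    push_cast
    ring

theorem sum_b (m : ℝ) (K : ℕ) : ∑ k ∈ Finset.range K, (m - 2 * k) ^ 2 =
    K * m ^ 2 - 2 * m * (K * (K - 1)) + 2 * (K * (K - 1) * (2 * K - 1)) / 3 := by
  induction K with
  | zero => simp
  | succ K ih =>
    rw [Finset.sum_range_succ, ih]
    push_cast
    ring

/-- SUMS -/
theorem sums : S_SUMS := by
  intro n
  have h1 := sum_a ((n : ℝ) + 1) (n + 1)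
  have h2 := sum_b ((n : ℝ) + 1) (n + 2)
  rw [h1, h2]
  push_cast
  ring

end
end K4H45.PC
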