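import Pool.Agent.K4H45.PC.Spec

namespace K4H45.PC
open Set

theorem sur_dot_inner (z w : ℂ) : dot z w = inner ℝ w z := by
  rw [Complex.inner]
  simp [dot, Complex.mul_re]

theorem sur_dot_self (z : ℂ) : dot z z = ‖z‖ ^ 2 := by
  rw [← Complex.normSq_eq_norm_sq, Complex.normSq_apply]; rfl

theorem sur_dot_le (z w : ℂ) : dot z w ≤ ‖z‖ * ‖w‖ := by
  rw [sur_dot_inner, mul_comm]; exact real_inner_le_norm _ _

theorem sur_xx_cont : Continuous xx := by
  unfold xx; fun_prop

theorem sur_lip {K : Set ℂ} {G : ℝ → ℂ} (hG : Par K G) (u t : ℝ) :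
    ‖G u - G t‖ ≤ ‖xx u - xx t‖ := by
  have h1 := hG.sup u (G t) (hG.mem t)
  have h2 := hG.sup t (G u) (hG.mem u)
  have h3 : ‖G u - G t‖ ^ 2 ≤ dot (G u - G t) (xx u - xx t) := by
    rw [← sur_dot_self]
    simp only [dot, Complex.sub_re, Complex.sub_im] at *
    nlinarith
  have h4 := sur_dot_le (G u - G t) (xx u - xx t)
  by_contra hc
  push Not at hc
  have h5 : 0 < ‖G u - G t‖ := lt_of_le_of_lt (norm_nonneg _) hc
  nlinarith

theorem sur_G_cont {K : Set ℂ} {G : ℝ → ℂ} (hG : Par K G) : Continuous G := by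
  rw [continuous_iff_continuousAt]
  intro t
  have hx : Filter.Tendsto (fun u => ‖xx u - xx t‖) (nhds t) (nhds 0) :=
    tendsto_iff_norm_sub_tendsto_zero.1 (sur_xx_cont.tendsto t)
  exact tendsto_iff_norm_sub_tendsto_zero.2
    (squeeze_zero (fun u => norm_nonneg _) (fun u => sur_lip hG u t) hx)

theorem sur : S_SUR := by
  intro K G hK hG p hp
  have hcl : IsClosed K := hK.cpt.isClosed
  have hpK : p ∈ K := by
    have := hp.1
    rwa [hcl.closure_eq] at this
  have himg : IsClosed (G '' Icc (-1/2 : ℝ) (1/2)) :=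
    (isCompact_Icc.image (sur_G_cont hG)).isClosed
  suffices hs : p ∈ closure (G '' Icc (-1/2 : ℝ) (1/2)) by
    rw [himg.closure_eq] at hs
    exact hs
  rw [Metric.mem_closure_iff]
  intro ε hε
  have hnot : ¬ Metric.ball p (ε / 2) ⊆ K := by
    intro hsub
    exact hp.2 (mem_interior.2 ⟨_, hsub, Metric.isOpen_ball, Metric.mem_ball_self (by positivity)⟩)
  obtain ⟨z, hz1, hz2⟩ := Set.not_subset.1 hnot
  obtain ⟨y0, hy0, hy1⟩ := exists_norm_eq_iInf_of_complete_convex hK.ne hK.cpt.isComplete hK.cvx z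
  have hvar := (norm_eq_iInf_iff_real_inner_le_zero hK.cvx hy0).1 hy1
  have hzy : ‖z - y0‖ ≤ ‖z - p‖ := by
    rw [hy1]
    exact ciInf_le ⟨0, by rintro _ ⟨w, rfl⟩; exact norm_nonneg _⟩ (⟨p, hpK⟩ : K)
  have hw0 : z - y0 ≠ 0 := by
    intro h
    rw [sub_eq_zero] at h
    exact hz2 (h ▸ hy0)
  have hwpos : 0 < ‖z - y0‖ := norm_pos_iff.2 hw0
  have hy0n : ‖y0‖ ≤ 1 := by
    have := hK.ball hy0
    simpa using this
  -- the ray meets the circle
  have hcont : ContinuousOn (fun l : ℝ => ‖y0 + (l : ℂ) * (z - y0)‖) (Icc 0 (3 / ‖z - y0‖)) := by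
    fun_prop
  have hivt := intermediate_value_Icc (by positivity : (0 : ℝ) ≤ 3 / ‖z - y0‖) hcont
  have hend : (2 : ℝ) ≤ ‖y0 + ((3 / ‖z - y0‖ : ℝ) : ℂ) * (z - y0)‖ := by
    have h1 : ‖((3 / ‖z - y0‖ : ℝ) : ℂ) * (z - y0)‖ = 3 := by
      rw [norm_mul, Complex.norm_real, Real.norm_of_nonneg (by positivity)]
      field_simp
    have h2 := norm_sub_norm_le (((3 / ‖z - y0‖ : ℝ) : ℂ) * (z - y0)) (-y0)
    rw [h1, norm_neg, sub_neg_eq_add, add_comm] at h2
    rw [add_comm] 
    rw [add_comm] at h2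
    linarith
  obtain ⟨l, ⟨hl0, hl1⟩, hl2⟩ := hivt ⟨by simpa using hy0n.trans one_le_two, hend⟩
  simp only at hl2
  have hlpos : 0 < l := by
    rcases hl0.lt_or_eq with h | h
    · exact h
    · rw [← h] at hl2
      simp at hl2
      linarith
  set x : ℂ := y0 + (l : ℂ) * (z - y0) with hx
  have hpi := Real.pi_pos
  have hxx : xx (Complex.arg x / (2 * Real.pi)) = x := by
    unfold xx
    have h1 : 2 * Real.pi * (Complex.arg x / (2 * Real.pi)) = Complex.arg x := by
      field_simp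
    rw [h1]
    have h2 := Complex.norm_mul_exp_arg_mul_I x
    rw [hl2] at h2
    exact_mod_cast h2
  refine ⟨G (Complex.arg x / (2 * Real.pi)), ⟨_, ⟨?_, ?_⟩, rfl⟩, ?_⟩
  · have := Complex.neg_pi_lt_arg x
    rw [le_div_iff₀ (by positivity)]
    linarith
  · have := Complex.arg_le_pi x
    rw [div_le_iff₀ (by positivity)]
    linarith
  · set a := Complex.arg x / (2 * Real.pi) with ha
    have hGa : G a = y0 := by
      have h1 := hG.sup a y0 hy0
      have h2 := hvar (G a) (hG.mem a)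
      rw [← sur_dot_inner] at h2
      rw [hxx] at h1
      have h3 : dot (y0 - G a) (y0 - G a) ≤ 0 := by
        have h4 : x.re = y0.re + l * (z.re - y0.re) := by simp [hx]
        have h5 : x.im = y0.im + l * (z.im - y0.im) := by simp [hx]
        have h6 : l * dot (G a - y0) (z - y0) ≤ 0 := mul_nonpos_of_nonneg_of_nonpos hlpos.le h2
        simp only [dot, Complex.sub_re, Complex.sub_im, h4, h5] at *
        nlinarith
      rw [sur_dot_self] at h3
      have h7 : ‖y0 - G a‖ = 0 := by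
        have := norm_nonneg (y0 - G a)
        nlinarith
      rw [norm_eq_zero, sub_eq_zero] at h7
      exact h7.symm
    rw [hGa]
    have hz1' : dist z p < ε / 2 := hz1
    calc dist p y0 ≤ dist p z + dist z y0 := dist_triangle _ _ _
      _ < ε := by
        rw [dist_comm p z, dist_eq_norm z y0]
        rw [dist_eq_norm] at hz1' ⊢
        linarith

end K4H45.PC
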