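import Pool.Agent.K4H45.PC.Low

/-! Piece VERT: the vertices of the regular polygon. -/

namespace K4H45.PC
open Set Polynomial

namespace VertAux

theorem nn_re (m k : ℕ) : (nn m k).re = Real.cos (2 * Real.pi * k / m) := by
  unfold nn
  rw [Complex.exp_ofReal_mul_I_re]

theorem nn_im (m k : ℕ) : (nn m k).im = Real.sin (2 * Real.pi * k / m) := by
  unfold nn
  rw [Complex.exp_ofReal_mul_I_im]

theorem vv_re (m k : ℕ) : (vv m k).re =
    1 / Real.cos (Real.pi / m) * Real.cos (2 * Real.pi * k / m + Real.pi / m) := by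
  unfold vv
  rw [Complex.re_ofReal_mul, Complex.exp_ofReal_mul_I_re]

theorem vv_im (m k : ℕ) : (vv m k).im =
    1 / Real.cos (Real.pi / m) * Real.sin (2 * Real.pi * k / m + Real.pi / m) := by
  unfold vv
  rw [Complex.im_ofReal_mul, Complex.exp_ofReal_mul_I_im]

theorem dot_vn (m k j : ℕ) : dot (vv m k) (nn m j) =
    1 / Real.cos (Real.pi / m) * Real.cos (2 * Real.pi * k / m + Real.pi / m - 2 * Real.pi * j / m) := by
  unfold dot
  rw [vv_re, vv_im, nn_re, nn_im, Real.cos_sub (2 * Real.pi * k / m + Real.pi / m)]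
  ring

theorem dot_vIn (m k j : ℕ) : dot (vv m k) (Complex.I * nn m j) =
    1 / Real.cos (Real.pi / m) * Real.sin (2 * Real.pi * k / m + Real.pi / m - 2 * Real.pi * j / m) := by
  unfold dot
  rw [Complex.mul_re, Complex.mul_im, Complex.I_re, Complex.I_im, vv_re, vv_im, nn_re, nn_im,
    Real.sin_sub (2 * Real.pi * k / m + Real.pi / m)]
  ring

theorem abs_dot_le (z w : ℂ) (hw : w.re ^ 2 + w.im ^ 2 = 1) : |dot z w| ≤ ‖z‖ := by
  have h1 : (dot z w) ^ 2 ≤ ‖z‖ ^ 2 := by
    rw [Complex.sq_norm, Complex.normSq_apply]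
    unfold dot
    have : (z.re * w.re + z.im * w.im) ^ 2 + (z.re * w.im - z.im * w.re) ^ 2 =
        (z.re * z.re + z.im * z.im) * (w.re ^ 2 + w.im ^ 2) := by ring
    rw [hw, mul_one] at this
    nlinarith [sq_nonneg (z.re * w.im - z.im * w.re)]
  exact abs_le_of_sq_le_sq h1 (norm_nonneg _)

theorem dot_sub_add (z w e : ℂ) : dot z e = dot w e + dot (z - w) e := by
  unfold dot
  rw [Complex.sub_re, Complex.sub_im]
  ring

theorem dot_smul (l : ℝ) (w e : ℂ) : dot (l * w) e = l * dot w e := by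
  unfold dot
  rw [Complex.re_ofReal_mul, Complex.im_ofReal_mul]
  ring

theorem In_unit (m j : ℕ) : (Complex.I * nn m j).re ^ 2 + (Complex.I * nn m j).im ^ 2 = 1 := by
  rw [Complex.mul_re, Complex.mul_im, Complex.I_re, Complex.I_im, nn_re, nn_im]
  have := Real.sin_sq_add_cos_sq (2 * Real.pi * j / m)
  nlinarith

theorem cos_le (m : ℕ) (hm : 3 ≤ m) (i : ℤ) (h1 : -(m : ℤ) < i) (h2 : i < m) :
    Real.cos ((2 * i + 1) * (Real.pi / m)) ≤ Real.cos (Real.pi / m) := by
  have hm0 : (0 : ℝ) < m := by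
    have : 0 < m := by omega
    exact_mod_cast this
  have e : Real.cos (Real.pi / m) - Real.cos ((2 * i + 1) * (Real.pi / m)) =
      2 * (Real.sin ((i + 1) * (Real.pi / m)) * Real.sin (i * (Real.pi / m))) := by
    have a1 : Real.cos (Real.pi / m) =
        Real.cos ((i + 1) * (Real.pi / m) - i * (Real.pi / m)) := by congr 1; ring
    have a2 : Real.cos ((2 * i + 1) * (Real.pi / m)) =
        Real.cos ((i + 1) * (Real.pi / m) + i * (Real.pi / m)) := by congr 1; ring
    rw [a1, a2, Real.cos_sub, Real.cos_add]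
    ring
  have hp : 0 < Real.pi / m := div_pos Real.pi_pos hm0
  have hpm : (m : ℝ) * (Real.pi / m) = Real.pi := by field_simp
  have pos : ∀ x : ℤ, 0 ≤ x → x ≤ m → 0 ≤ Real.sin (x * (Real.pi / m)) := by
    intro x hx hxm
    have b1 : (0 : ℝ) ≤ x := by exact_mod_cast hx
    have b2 : (x : ℝ) ≤ m := by exact_mod_cast hxm
    apply Real.sin_nonneg_of_nonneg_of_le_pi (mul_nonneg b1 hp.le)
    calc (x : ℝ) * (Real.pi / m) ≤ m * (Real.pi / m) := mul_le_mul_of_nonneg_right b2 hp.le
      _ = Real.pi := hpm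
  have : 0 ≤ Real.sin ((i + 1) * (Real.pi / m)) * Real.sin (i * (Real.pi / m)) := by
    by_cases hi : 0 ≤ i
    · have c1 := pos (i + 1) (by omega) (by omega)
      have c2 := pos i hi (by omega)
      push_cast at c1
      exact mul_nonneg c1 c2
    · have c1 := pos (-(i + 1)) (by omega) (by omega)
      have c2 := pos (-i) (by omega) (by omega)
      push_cast at c1 c2
      have d1 : Real.sin ((i + 1) * (Real.pi / m)) ≤ 0 := by
        have : Real.sin (-(((i : ℝ) + 1) * (Real.pi / m))) = Real.sin ((-1 + -(i : ℝ)) * (Real.pi / m)) := by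
          congr 1; ring
        rw [Real.sin_neg] at this
        have c1' : 0 ≤ Real.sin ((-1 + -(i : ℝ)) * (Real.pi / m)) := by
          convert c1 using 2
          ring
        linarith
      have d2 : Real.sin (i * (Real.pi / m)) ≤ 0 := by
        have : Real.sin (-((i : ℝ) * (Real.pi / m))) = Real.sin (-(i : ℝ) * (Real.pi / m)) := by
          congr 1; ring
        rw [Real.sin_neg] at this
        linarith
      exact mul_nonneg_of_nonpos_of_nonpos d1 d2
  linarith

end VertAux

open VertAux in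
theorem vert : S_VERT := by
  intro m k hm hk
  have hm0 : (0 : ℝ) < m := by
    have : 0 < m := by omega
    exact_mod_cast this
  have hm3 : (3 : ℝ) ≤ m := by exact_mod_cast hm
  have hp : 0 < Real.pi / m := div_pos Real.pi_pos hm0
  have hp2 : Real.pi / m ≤ Real.pi / 3 := div_le_div_of_nonneg_left Real.pi_pos.le (by norm_num) hm3
  have hc : 0 < Real.cos (Real.pi / m) := by
    apply Real.cos_pos_of_mem_Ioo
    constructor <;> linarith [Real.pi_pos]
  have hkk : 2 * Real.pi * k / m + Real.pi / m - 2 * Real.pi * k / m = Real.pi / m := by ring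
  refine ⟨?_, ?_, ?_⟩
  · unfold gg
    haveI : Nonempty (Fin m) := ⟨⟨k, hk⟩⟩
    have hle : ∀ j : Fin m, dot (vv m k) (nn m j) ≤ 1 := by
      intro j
      rw [dot_vn, one_div, inv_mul_le_iff₀ hc, mul_one]
      have h := cos_le m hm ((k : ℤ) - (j.1 : ℤ)) (by have := j.2; omega) (by omega)
      refine le_trans (le_of_eq ?_) h
      congr 1
      push_cast
      ring
    apply le_antisymm (ciSup_le hle)
    have h1 : dot (vv m k) (nn m (⟨k, hk⟩ : Fin m)) = 1 := by
      rw [dot_vn]
      simp only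
      rw [hkk, one_div, inv_mul_cancel₀ hc.ne']
    calc (1 : ℝ) = dot (vv m k) (nn m (⟨k, hk⟩ : Fin m)) := h1.symm
      _ ≤ ⨆ j : Fin m, dot (vv m k) (nn m j) :=
        le_ciSup (f := fun j : Fin m => dot (vv m k) (nn m j)) ⟨1, by rintro _ ⟨j, rfl⟩; exact hle j⟩ ⟨k, hk⟩
  · have e : ‖vv m k‖ = 1 / Real.cos (Real.pi / m) := by
      unfold vv
      rw [norm_mul, Complex.norm_exp_ofReal_mul_I, mul_one, Complex.norm_real, Real.norm_eq_abs,
        abs_of_pos (by positivity)]
    rw [e, le_div_iff₀ hc]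
    have h1 : Real.cos (Real.pi / m) ≤ 1 - 2 / Real.pi ^ 2 * (Real.pi / m) ^ 2 :=
      Real.cos_le_one_sub_mul_cos_sq (by rw [abs_of_pos hp]; linarith [Real.pi_pos])
    have h2 : 2 / Real.pi ^ 2 * (Real.pi / m) ^ 2 = 2 / (m : ℝ) ^ 2 := by
      have := Real.pi_pos
      field_simp
    rw [h2] at h1
    have h3 : 0 ≤ 2 / (m : ℝ) ^ 2 := by positivity
    have h4 : (1 + 2 / (m : ℝ) ^ 2) * Real.cos (Real.pi / m) ≤
        (1 + 2 / (m : ℝ) ^ 2) * (1 - 2 / (m : ℝ) ^ 2) := mul_le_mul_of_nonneg_left h1 (by linarith)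
    nlinarith
  · intro z lam hlam hz
    have ht : Real.pi / m ≤ 1 / Real.cos (Real.pi / m) * Real.sin (Real.pi / m) := by
      have := Real.le_tan hp.le (by linarith [Real.pi_pos])
      rw [Real.tan_eq_sin_div_cos] at this
      rw [one_div, inv_mul_eq_div]
      exact this
    have h1m : 1 / (m : ℝ) ^ 2 ≤ Real.pi / m := by
      rw [div_le_div_iff₀ (by positivity) hm0]
      have := Real.pi_gt_three
      nlinarith
    have hlm : lam / (m : ℝ) ^ 2 ≤ lam * (Real.pi / m) := by
      calc lam / (m : ℝ) ^ 2 = lam * (1 / (m : ℝ) ^ 2) := by ring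
        _ ≤ lam * (Real.pi / m) := mul_le_mul_of_nonneg_left h1m hlam.le
    have hlt : lam * (Real.pi / m) ≤ lam * (1 / Real.cos (Real.pi / m) * Real.sin (Real.pi / m)) :=
      mul_le_mul_of_nonneg_left ht hlam.le
    constructor
    · rw [dot_sub_add z (lam * vv m k), dot_smul, dot_vIn, hkk]
      have := (abs_le.1 (abs_dot_le (z - lam * vv m k) _ (In_unit m k))).1
      linarith
    · rw [dot_sub_add z (lam * vv m k), dot_smul, dot_vIn]
      have e2 : 2 * Real.pi * k / m + Real.pi / m - 2 * Real.pi * ((k + 1 : ℕ) : ℝ) / m = -(Real.pi / m) := by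
        push_cast
        ring
      rw [e2, Real.sin_neg]
      have := (abs_le.1 (abs_dot_le (z - lam * vv m k) _ (In_unit m (k + 1)))).2
      linarith

end K4H45.PC
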